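import Mathlib

/-! The order `ℤ[φ] + ℤ[φ] j`, `φ² = φ + 1`, `j² = 13`, `j φ = (1 - φ) j`, of the quaternion
algebra `(5, 13 / ℚ)` of discriminant `65`, and its real matrices. -/

set_option autoImplicit false

open scoped MatrixGroups
open Matrix

namespace Pool.Agent.E8helper58.HM

/-- Coordinates with respect to the basis `1, φ, j, φ j`. -/
@[ext] structure Q4 (R : Type) where
  a : R
  b : R
  c : R
  d : R
deriving DecidableEq

namespace Q4

variable {R : Type} [CommRing R]

instance : Mul (Q4 R) := ⟨fun x y =>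
  ⟨x.a * y.a + x.b * y.b + 13 * (x.c * y.c + x.c * y.d - x.d * y.d),
   x.a * y.b + x.b * y.a + x.b * y.b + 13 * (x.d * y.c - x.c * y.d),
   x.a * y.c + x.b * y.d + x.c * y.a + x.c * y.b - x.d * y.b,
   x.a * y.d + x.b * y.c + x.b * y.d + x.d * y.a - x.c * y.b⟩⟩

instance : One (Q4 R) := ⟨⟨1, 0, 0, 0⟩⟩

theorem mul_def (x y : Q4 R) : x * y =
  ⟨x.a * y.a + x.b * y.b + 13 * (x.c * y.c + x.c * y.d - x.d * y.d),
   x.a * y.b + x.b * y.a + x.b * y.b + 13 * (x.d * y.c - x.c * y.d),
   x.a * y.c + x.b * y.d + x.c * y.a + x.c * y.b - x.d * y.b,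
   x.a * y.d + x.b * y.c + x.b * y.d + x.d * y.a - x.c * y.b⟩ := rfl

theorem one_def : (1 : Q4 R) = ⟨1, 0, 0, 0⟩ := rfl

instance : Monoid (Q4 R) where
  mul_assoc x y z := by
    simp only [mul_def]
    ext <;> ring
  one_mul x := by
    simp only [mul_def, one_def]
    ext <;> simp
  mul_one x := by
    simp only [mul_def, one_def]
    ext <;> simp

/-- The conjugate. -/
def conj (x : Q4 R) : Q4 R := ⟨x.a + x.b, -x.b, -x.c, -x.d⟩

/-- The norm form. -/
def nf (x : Q4 R) : R := x.a ^ 2 + x.a * x.b - x.b ^ 2 - 13 * (x.c ^ 2 + x.c * x.d - x.d ^ 2)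

/-- Scalars. -/
def smul (t : R) (x : Q4 R) : Q4 R := ⟨t * x.a, t * x.b, t * x.c, t * x.d⟩

theorem nf_mul (x y : Q4 R) : nf (x * y) = nf x * nf y := by
  simp only [nf, mul_def]; ring

theorem conj_mul (x y : Q4 R) : conj (x * y) = conj y * conj x := by
  simp only [conj, mul_def]; ext <;> ring

theorem conj_conj (x : Q4 R) : conj (conj x) = x := by
  simp only [conj]; ext <;> ring

theorem nf_conj (x : Q4 R) : nf (conj x) = nf x := by
  simp only [conj, nf]; ring

theorem mul_conj (x : Q4 R) : x * conj x = smul (nf x) 1 := by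
  simp only [conj, mul_def, nf, smul, one_def]; ext <;> ring

theorem conj_mul_self (x : Q4 R) : conj x * x = smul (nf x) 1 := by
  simp only [conj, mul_def, nf, smul, one_def]; ext <;> ring

theorem nf_one : nf (1 : Q4 R) = 1 := by simp [nf, one_def]

theorem conj_one : conj (1 : Q4 R) = 1 := by simp [conj, one_def]

theorem one_smul' (x : Q4 R) : smul 1 x = x := by simp [smul]

theorem smul_mul (t : R) (x y : Q4 R) : smul t x * y = smul t (x * y) := by
  simp only [smul, mul_def]; ext <;> ring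

theorem mul_smul' (t : R) (x y : Q4 R) : x * smul t y = smul t (x * y) := by
  simp only [smul, mul_def]; ext <;> ring

theorem smul_smul' (s t : R) (x : Q4 R) : smul s (smul t x) = smul (s * t) x := by
  simp only [smul]; ext <;> ring

end Q4

open Q4

theorem sqrt5_sq : √(5 : ℝ) * √5 = 5 := Real.mul_self_sqrt (by norm_num)

theorem sqrt5_gt : (2 : ℝ) < √5 := by
  rw [Real.lt_sqrt (by norm_num)]; norm_num

theorem sqrt5_lt : √(5 : ℝ) < 3 := by
  rw [Real.sqrt_lt' (by norm_num)]; norm_num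

/-- `φ`. -/
noncomputable def ph : ℝ := (1 + √5) / 2

/-- The conjugate of `φ`. -/
noncomputable def pc : ℝ := (1 - √5) / 2

theorem ph_sq : ph * ph = ph + 1 := by
  unfold ph; have := sqrt5_sq; nlinarith

theorem pc_sq : pc * pc = pc + 1 := by
  unfold pc; have := sqrt5_sq; nlinarith

theorem ph_add_pc : ph + pc = 1 := by unfold ph pc; ring

theorem ph_mul_pc : ph * pc = -1 := by
  unfold ph pc; have := sqrt5_sq; nlinarith

/-- The real matrix. -/
noncomputable def om (x : Q4 ℤ) : Matrix (Fin 2) (Fin 2) ℝ :=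
  !![(x.a : ℝ) + x.b * ph, x.c + x.d * ph; 13 * (x.c + x.d * pc), x.a + x.b * pc]

theorem om_mul (x y : Q4 ℤ) : om x * om y = om (x * y) := by
  have h1 := ph_sq
  have h2 := pc_sq
  have h3 := ph_mul_pc
  have h4 := ph_add_pc
  have h5 : pc = 1 - ph := by linarith
  unfold om
  rw [Matrix.mul_fin_two, mul_def]
  push_cast
  rw [h5]
  congr 2
  · congr 1
    · linear_combination ((x.b : ℝ) * y.b - 13 * x.d * y.d) * h1
    · congr 1
      linear_combination ((x.b : ℝ) * y.d - x.d * y.b) * h1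
  · congr 1
    congr 1
    · linear_combination (13 * ((x.b : ℝ) * y.d - x.d * y.b)) * h1 - 0 * h3
    · congr 1
      linear_combination ((x.b : ℝ) * y.b - 13 * x.d * y.d) * h1

theorem det_om (x : Q4 ℤ) : (om x).det = ((nf x : ℤ) : ℝ) := by
  have h1 := ph_sq
  have h4 := ph_add_pc
  have h5 : pc = 1 - ph := by linarith
  unfold om nf
  rw [Matrix.det_fin_two_of, h5]
  push_cast
  linear_combination (-(x.b : ℝ) ^ 2 + 13 * x.d ^ 2) * h1

theorem adj_om (x : Q4 ℤ) : (om x).adjugate = om (conj x) := by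
  have h4 := ph_add_pc
  have h5 : pc = 1 - ph := by linarith
  unfold om conj
  rw [Matrix.adjugate_fin_two_of, h5]
  push_cast
  congr 2
  · congr 1
    · ring
    · congr 1
      ring
  · congr 1
    congr 1
    · ring
    · congr 1
      ring

theorem om_one : om 1 = 1 := by
  unfold om
  simp [Q4.one_def, Matrix.one_fin_two]

theorem irr5 : Irrational √(5 : ℝ) := by
  have := Nat.Prime.irrational_sqrt (p := 5) (by norm_num)
  simpa using this

theorem lin_zero {x y : ℤ} (h : (x : ℝ) + y * ph = 0) : x = 0 ∧ y = 0 := by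
  have h1 : (2 * x + y : ℤ) + (y : ℝ) * √5 = 0 := by
    unfold ph at h; push_cast; linarith
  have hy : y = 0 := by
    by_contra hy
    have hyR : (y : ℝ) ≠ 0 := by exact_mod_cast hy
    apply irr5
    refine ⟨-((2 * x + y : ℤ) : ℚ) / y, ?_⟩
    push_cast
    push_cast at h1
    field_simp
    linarith
  subst hy
  simp at h1
  exact ⟨h1, rfl⟩

theorem om_injective {x y : Q4 ℤ} (h : om x = om y) : x = y := by
  have h00 := congrFun (congrFun h 0) 0
  have h01 := congrFun (congrFun h 0) 1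
  simp [om] at h00 h01
  have e1 : ((x.a - y.a : ℤ) : ℝ) + ((x.b - y.b : ℤ) : ℝ) * ph = 0 := by push_cast; linarith
  have e2 : ((x.c - y.c : ℤ) : ℝ) + ((x.d - y.d : ℤ) : ℝ) * ph = 0 := by push_cast; linarith
  obtain ⟨h1, h2⟩ := lin_zero e1
  obtain ⟨h3, h4⟩ := lin_zero e2
  ext <;> omega

theorem om_smul (t : ℤ) (x : Q4 ℤ) : om (Q4.smul t x) = (t : ℝ) • om x := by
  unfold om Q4.smul
  ext i j
  fin_cases i <;> fin_cases j <;> simp <;> ring

theorem trace_om (x : Q4 ℤ) : (om x).trace = ((2 * x.a + x.b : ℤ) : ℝ) := by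
  have h4 := ph_add_pc
  unfold om
  rw [Matrix.trace_fin_two_of]
  push_cast
  linear_combination (x.b : ℝ) * h4

end Pool.Agent.E8helper58.HM
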