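import Pool.Agent.H85R3.HSEig
import Pool.Agent.E8helper58.HM.Quat

/-! Statements of the parts of the project on hidden multiplicities. -/

set_option autoImplicit false

open scoped MatrixGroups UpperHalfPlane ContDiff ENNReal Topology
open MeasureTheory UpperHalfPlane Filter Pool.Agent.H85R3.HS

namespace Pool.Agent.E8helper58.HM

/-- The pair correlation function `R₂(N; [a, b])` of the sequence `x`. -/
noncomputable def pairCorr (x : ℕ → ℝ) (N : ℕ) (a b : ℝ) : ℝ :=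
  (Set.ncard {p : ℕ × ℕ | p.1 < N ∧ p.2 < N ∧ p.1 ≠ p.2 ∧ a ≤ x p.1 - x p.2 ∧
    x p.1 - x p.2 ≤ b} : ℝ) / N

/-- The pair correlation of the sequence `x` is Poissonian. -/
def IsPoissonian (x : ℕ → ℝ) : Prop :=
  ∀ a b : ℝ, a < b → Tendsto (fun N : ℕ => pairCorr x N a b) atTop (𝓝 (b - a))

/-- The min-max values of the form `E` relative to the form `B`. -/
noncomputable def mu {W : Type} [AddCommGroup W] [Module ℝ W] (E B : LinearMap.BilinForm ℝ W)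
    (i : ℕ) : ℝ :=
  sInf {t : ℝ | 0 ≤ t ∧ ∃ V : Submodule ℝ W, Module.finrank ℝ V = i + 1 ∧
    ∀ f ∈ V, E f f ≤ t * B f f}

/-- Part ABS. Two projections `e`, `F`, self-adjoint for both forms, with `e F e = c e`, `0 < c < 1`,
force multiplicities of a positive proportion of the min-max values, if those of the range of `e`
grow at most linearly; so the scaled min-max values are not Poissonian. -/
def S_ABS : Prop :=
  ∀ (W : Type) [AddCommGroup W] [Module ℝ W] (E B : LinearMap.BilinForm ℝ W)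
    (e F : W →ₗ[ℝ] W) (c C κ : ℝ),
    (∀ f g, E f g = E g f) → (∀ f g, B f g = B g f) →
    (∀ f, 0 ≤ E f f) → (∀ f, f ≠ 0 → 0 < B f f) →
    (∀ f, e (e f) = e f) → (∀ f, F (F f) = F f) → (∀ f, e (F (e f)) = c • e f) →
    0 < c → c < 1 →
    (∀ f g, E (e f) g = E f (e g)) → (∀ f g, B (e f) g = B f (e g)) →
    (∀ f g, E (F f) g = E f (F g)) → (∀ f g, B (F f) g = B f (F g)) →
    (∀ i : ℕ, ∃ V : Submodule ℝ W, V ≤ LinearMap.range e ∧ Module.finrank ℝ V = i + 1 ∧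
      ∀ f ∈ V, E f f ≤ C * (i + 1) * B f f) →
    0 < κ → ¬ IsPoissonian fun k => κ * mu E B k

/-- The space of smooth functions on `ℍ / Γ`. -/
def smoothSub (Γ : Subgroup SL(2, ℝ)) : Submodule ℝ (ℍ → ℝ) where
  carrier := {f | IsSmoothOn Γ f}
  add_mem' {f g} hf hg := ⟨hf.smooth.add hg.smooth, fun γ hγ z => by
    simp only [Pi.add_apply, hf.invariant γ hγ z, hg.invariant γ hγ z]⟩
  zero_mem' := ⟨contDiffOn_const, fun _ _ _ => rfl⟩
  smul_mem' c f hf := ⟨contDiffOn_const.smul hf.smooth, fun γ hγ z => by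
    simp only [Pi.smul_apply, hf.invariant γ hγ z]⟩

/-- `c` is a system of representatives of the cosets `Γ g`, `g ∈ Γ'`. -/
def IsReps (Γ Γ' : Subgroup SL(2, ℝ)) {m : ℕ} (c : Fin m → SL(2, ℝ)) : Prop :=
  Γ ≤ Γ' ∧ (∀ i, c i ∈ Γ') ∧ ∀ g ∈ Γ', ∃! i, g * (c i)⁻¹ ∈ Γ

/-- Part AVG. The energy and the `L²` form on the smooth functions of `ℍ / Γ`, and the averaging
operators over groups `Γ' ≥ Γ`. -/
def S_AVG : Prop :=
  ∀ (Γ : Subgroup SL(2, ℝ)) (S : ℝ), MovesFar Γ S → 0 < S →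
    (∃ K : Set ℍ, IsCompact K ∧ ∀ z : ℍ, ∃ g ∈ Γ, g • z ∈ K) →
    ∃ E B : LinearMap.BilinForm ℝ (smoothSub Γ),
      (∀ f g, E f g = E g f) ∧ (∀ f g, B f g = B g f) ∧
      (∀ f, 0 ≤ E f f) ∧ (∀ f, f ≠ 0 → 0 < B f f) ∧
      (∀ (f : smoothSub Γ) (t : ℝ), 0 ≤ t → (RayleighLE Γ f.1 t ↔ E f f ≤ t * B f f)) ∧
      ∀ (Γ' : Subgroup SL(2, ℝ)) (S' : ℝ) (m : ℕ) (c : Fin m → SL(2, ℝ)),
        MovesFar Γ' S' → 0 < S' → IsReps Γ Γ' c →
        ∃ A : smoothSub Γ →ₗ[ℝ] smoothSub Γ,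
          (∀ f z, (A f).1 z = (m : ℝ)⁻¹ * ∑ i, f.1 (c i • z)) ∧
          (∀ f, IsSmoothOn Γ' (A f).1) ∧
          (∀ f, IsSmoothOn Γ' f.1 → A f = f) ∧
          (∀ f g, E (A f) g = E f (A g)) ∧ (∀ f g, B (A f) g = B f (A g))

/-- Part TEST. Test functions on `ℍ / Γ₁` whose averages over `Γ₀` vanish. -/
def S_TEST : Prop :=
  ∀ (Γ₁ Γ₀ : Subgroup SL(2, ℝ)) (S : ℝ) (m : ℕ) (c : Fin m → SL(2, ℝ)) (h : SL(2, ℝ)),
    MovesFar Γ₀ S → 0 < S → IsReps Γ₁ Γ₀ c → h ∈ Γ₀ → h ∉ Γ₁ →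
    ∃ C : ℝ, 0 < C ∧ ∀ i : ℕ, ∃ V : Submodule ℝ (ℍ → ℝ), Module.finrank ℝ V = i + 1 ∧
      ∀ f ∈ V, IsSmoothOn Γ₁ f ∧ (∀ z, ∑ k, f (c k • z) = 0) ∧ RayleighLE Γ₁ f (C * (i + 1))

/-- The principal congruence subgroup of level `N` of the norm one units of the order. -/
def InCong (N : ℤ) (g : SL(2, ℝ)) : Prop :=
  ∃ x : Q4 ℤ, g.1 = om x ∧ N ∣ x.a - 1 ∧ N ∣ x.b ∧ N ∣ x.c ∧ N ∣ x.d

/-- Part COC. The principal congruence subgroups are cocompact. -/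
def S_COC : Prop :=
  ∀ N : ℤ, 0 < N → ∃ K : Set ℍ, IsCompact K ∧ ∀ z : ℍ, ∃ g : SL(2, ℝ), InCong N g ∧ g • z ∈ K

end Pool.Agent.E8helper58.HM
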