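import Pool.Agent.E8helper58.HM.Groups

/-! Coset representatives, and the principal congruence subgroup. -/

set_option autoImplicit false

open scoped MatrixGroups UpperHalfPlane
open UpperHalfPlane Pool.Agent.H85R3.HS

namespace Pool.Agent.E8helper58.HM

open Q4

/-- Existence check. -/
def exChk (m : ℕ) (cond : Q4 ℕ → Bool) (qs : List (Q4 ℕ)) (r : List ℕ) : Bool :=
  loop4 r fun u => !(cond u) || qs.any fun c => m.testBit (code 7 (nmul 7 u (nconj 7 c)))

theorem isReps_of {m : ℕ} {c : Fin m → SL(2, ℝ)} {q : Fin m → Q4 ℤ} (hc : ∀ i, (c i).1 = om (q i))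
    {l : List (Q4 ℕ)} (hl : IsGrp 7 l) {T' : Q4 ℤ → Prop} (hT' : IsLvl T')
    (hTT' : ∀ x, In 7 l x → T' x) (hq : ∀ i, Base (q i) ∧ T' (q i)) {cond : Q4 ℕ → Bool}
    (hcond : ∀ x, Base x → T' x → cond (rd 7 x) = true) {qs : List (Q4 ℕ)}
    (hqs : List.ofFn (fun i => rd 7 (q i)) = qs)
    (hex : exChk (mask 7 l) cond qs (List.range 7) = true)
    (hun : ∀ i j, nmul 7 (rd 7 (q j)) (nconj 7 (rd 7 (q i))) ∈ l → i = j) :
    IsReps (grp _ (lvl_in (by norm_num) hl)) (grp T' hT') c := by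
  have hmem : ∀ (g : SL(2, ℝ)) (x : Q4 ℤ) (i : Fin m), g.1 = om x → Base x →
      (g * (c i)⁻¹ ∈ grp _ (lvl_in (by norm_num) hl) ↔
        nmul 7 (rd 7 x) (nconj 7 (rd 7 (q i))) ∈ l) := by
    intro g x i hg hx
    have h1 : (g * (c i)⁻¹).1 = om (x * conj (q i)) := by
      rw [Matrix.SpecialLinearGroup.coe_mul, Matrix.SpecialLinearGroup.coe_inv, hc, adj_om, hg,
        om_mul]
    constructor
    · rintro ⟨y, hy, -, h3⟩
      have h4 : x * conj (q i) = y := om_injective (h1.symm.trans hy)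
      subst h4
      unfold In at h3
      rwa [rd_mul (by norm_num), rd_conj (by norm_num)] at h3
    · intro h
      refine ⟨_, h1, hx.mul (hq i).1.conj, ?_⟩
      unfold In
      rwa [rd_mul (by norm_num), rd_conj (by norm_num)]
  refine ⟨grp_mono hTT', fun i => ⟨q i, hc i, hq i⟩, ?_⟩
  rintro g ⟨x, hx, hb, ht⟩
  have h1 := loop4_spec hex (rd 7 x) (red_rd (by norm_num) x)
  rw [hcond x hb ht] at h1
  simp only [Bool.not_true, Bool.false_or, List.any_eq_true] at h1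
  obtain ⟨u, hu, hu2⟩ := h1
  rw [← hqs, List.mem_ofFn] at hu
  obtain ⟨i, rfl⟩ := hu
  have h2 : nmul 7 (rd 7 x) (nconj 7 (rd 7 (q i))) ∈ l :=
    mem_of_mask hl.red (red_nmul (by norm_num) _ _) hu2
  have h3 := (hmem g x i hx hb).mpr h2
  refine ⟨i, h3, fun j hj => ?_⟩
  have h4 : c j * (c i)⁻¹ ∈ grp _ (lvl_in (by norm_num) hl) := by
    have h5 := (grp _ (lvl_in (by norm_num) hl)).mul_mem
      ((grp _ (lvl_in (by norm_num) hl)).inv_mem hj) h3
    have h6 : (g * (c j)⁻¹)⁻¹ * (g * (c i)⁻¹) = c j * (c i)⁻¹ := by group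
    rwa [h6] at h5
  exact (hun i j ((hmem (c j) (q j) i (hc j) (hq j).1).mp h4)).symm

theorem nf_ea : Q4.nf ea = 1 := by decide +kernel
theorem nf_eb : Q4.nf eb = 1 := by decide +kernel

/-- The element `a`. -/
noncomputable def sa : SL(2, ℝ) := sl ea nf_ea
/-- The element `b`. -/
noncomputable def sb : SL(2, ℝ) := sl eb nf_eb

theorem sa_coe : sa.1 = om ea := rfl
theorem sb_coe : sb.1 = om eb := rfl

/-- Representatives. -/
def qP : Fin 3 → Q4 ℤ := ![1, ea, ea * ea]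
/-- Representatives. -/
noncomputable def cP : Fin 3 → SL(2, ℝ) := ![1, sa, sa * sa]
/-- Representatives. -/
def qL : Fin 3 → Q4 ℤ := ![1, eb, eb * eb]
/-- Representatives. -/
noncomputable def cL : Fin 3 → SL(2, ℝ) := ![1, sb, sb * sb]
/-- Representatives. -/
def q7 : Fin 7 → Q4 ℤ := ![1, eb, eb * ea, eb * (ea * ea), eb * eb, eb * (eb * ea),
  eb * (eb * (ea * ea))]
/-- Representatives. -/
noncomputable def c7 : Fin 7 → SL(2, ℝ) := ![1, sb, sb * sa, sb * (sa * sa), sb * sb,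
  sb * (sb * sa), sb * (sb * (sa * sa))]
/-- Representatives. -/
def q0 : Fin 21 → Q4 ℤ := ![1, eb, eb * ea, eb * (ea * ea), eb * eb, eb * (eb * ea),
  eb * (eb * (ea * ea)), ea, ea * eb, ea * (eb * ea), ea * (eb * (ea * ea)), ea * (eb * eb),
  ea * (eb * (eb * ea)), ea * (eb * (eb * (ea * ea))), ea * ea, ea * (ea * eb),
  ea * (ea * (eb * ea)), ea * (ea * (eb * (ea * ea))), ea * (ea * (eb * eb)),
  ea * (ea * (eb * (eb * ea))), ea * (ea * (eb * (eb * (ea * ea))))]
/-- Representatives. -/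
noncomputable def c0 : Fin 21 → SL(2, ℝ) := ![1, sb, sb * sa, sb * (sa * sa), sb * sb,
  sb * (sb * sa), sb * (sb * (sa * sa)), sa, sa * sb, sa * (sb * sa), sa * (sb * (sa * sa)),
  sa * (sb * sb), sa * (sb * (sb * sa)), sa * (sb * (sb * (sa * sa))), sa * sa, sa * (sa * sb),
  sa * (sa * (sb * sa)), sa * (sa * (sb * (sa * sa))), sa * (sa * (sb * sb)),
  sa * (sa * (sb * (sb * sa))), sa * (sa * (sb * (sb * (sa * sa))))]

theorem hcP : ∀ i, (cP i).1 = om (qP i) := by
  intro i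
  fin_cases i <;> simp [cP, qP, sa_coe, om_mul, om_one]

theorem hcL : ∀ i, (cL i).1 = om (qL i) := by
  intro i
  fin_cases i <;> simp [cL, qL, sb_coe, om_mul, om_one]

theorem hc7 : ∀ i, (c7 i).1 = om (q7 i) := by
  intro i
  fin_cases i <;> simp [c7, q7, sa_coe, sb_coe, om_mul, om_one]

theorem hc0 : ∀ i, (c0 i).1 = om (q0 i) := by
  intro i
  fin_cases i <;> simp [c0, q0, sa_coe, sb_coe, om_mul, om_one]

theorem repsP : IsReps GamH GamP cP :=
  isReps_of hcP grpH (lvl_in (by norm_num) grpP) (fun _ h => lH_sub_lP _ h)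
    (by decide +kernel) (cond := fun u => (mask 7 lP).testBit (code 7 u))
    (fun _ _ h => mask_of_mem h) rfl (by decide +kernel) (by decide +kernel)

theorem repsL : IsReps GamH GamL cL :=
  isReps_of hcL grpH (lvl_in (by norm_num) grpL) (fun _ h => lH_sub_lL _ h)
    (by decide +kernel) (cond := fun u => (mask 7 lL).testBit (code 7 u))
    (fun _ _ h => mask_of_mem h) rfl (by decide +kernel) (by decide +kernel)

theorem cond_nf (x : Q4 ℤ) (h : Base x) : Nat.beq (nnf 7 (rd 7 x)) 1 = true := by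
  rw [nnf_rd (by norm_num), h.1]
  rfl

theorem reps7 : IsReps GamP Gam0 c7 :=
  isReps_of hc7 grpP lvl_true (fun _ _ => trivial)
    (fun i => ⟨(by decide +kernel : ∀ i, Base (q7 i)) i, trivial⟩)
    (cond := fun u => Nat.beq (nnf 7 u) 1)
    (fun x h _ => cond_nf x h) rfl (by decide +kernel) (by decide +kernel)

theorem reps0 : IsReps GamH Gam0 c0 :=
  isReps_of hc0 grpH lvl_true (fun _ _ => trivial)
    (fun i => ⟨(by decide +kernel : ∀ i, Base (q0 i)) i, trivial⟩)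
    (cond := fun u => Nat.beq (nnf 7 u) 1)
    (fun x h _ => cond_nf x h) rfl (by decide +kernel) (by decide +kernel)

theorem sb_mem : sb ∈ Gam0 := (sl_mem nf_eb).mpr ⟨by decide +kernel, trivial⟩

theorem sb_notMem : sb ∉ GamP := by
  intro h
  have h1 := ((sl_mem nf_eb).mp h).2
  exact absurd h1 (by decide +kernel)

theorem sa_cube : sa * (sa * sa) ∈ GamH :=
  ⟨ea * (ea * ea), by simp [sa_coe, om_mul], by decide +kernel, by decide +kernel⟩

theorem sb_cube : sb * (sb * sb) ∈ GamH :=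
  ⟨eb * (eb * eb), by simp [sb_coe, om_mul], by decide +kernel, by decide +kernel⟩

theorem rd_cong {p : ℕ} (hp : 1 < p) {N : ℤ} (hN : (p : ℤ) ∣ N) {x : Q4 ℤ} (h1 : N ∣ x.a - 1)
    (h2 : N ∣ x.b) (h3 : N ∣ x.c) (h4 : N ∣ x.d) : rd p x = ⟨1, 0, 0, 0⟩ := by
  have e1 : x.a % p = 1 := by
    have h5 : (p : ℤ) ∣ x.a - 1 := hN.trans h1
    have h6 : x.a % p = 1 % p := (Int.modEq_iff_dvd.mpr h5).symm
    rw [h6]
    exact Int.emod_eq_of_lt (by norm_num) (by exact_mod_cast hp)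
  have e2 : x.b % p = 0 := Int.emod_eq_zero_of_dvd (hN.trans h2)
  have e3 : x.c % p = 0 := Int.emod_eq_zero_of_dvd (hN.trans h3)
  have e4 : x.d % p = 0 := Int.emod_eq_zero_of_dvd (hN.trans h4)
  unfold rd
  rw [e1, e2, e3, e4]
  rfl

theorem cong_mem {g : SL(2, ℝ)} (h : InCong 6545 g) : g ∈ GamH := by
  obtain ⟨x, hx, h1, h2, h3, h4⟩ := h
  have hn : Q4.nf x = 1 := by
    have := g.2
    rw [hx, det_om] at this
    exact_mod_cast this
  have key : ∀ {p : ℕ} {l : List (Q4 ℕ)}, 1 < p → (p : ℤ) ∣ 6545 → IsGrp p l → In p l x := by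
    intro p l hp hd hl
    unfold In
    rw [rd_cong hp hd h1 h2 h3 h4]
    exact hl.one
  exact ⟨x, hx, ⟨hn, key (by norm_num) (by norm_num) grp5, key (by norm_num) (by norm_num) grpA,
    key (by norm_num) (by norm_num) grpB⟩, key (by norm_num) (by norm_num) grpH⟩

end Pool.Agent.E8helper58.HM
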