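import Pool.Agent.E8helper58.HM.Quat

/-! Lists of quadruples of residues: the level structures. -/

set_option autoImplicit false

namespace Pool.Agent.E8helper58.HM

/-- Level structure at `5`: the elements whose image in the field with `25` elements has order dividing `3`. -/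
def l5 : List (Q4 ℕ) := [
  ⟨0, 2, 0, 0⟩, ⟨0, 2, 1, 3⟩, ⟨0, 2, 2, 1⟩, ⟨0, 2, 3, 4⟩, ⟨0, 2, 4, 2⟩, ⟨0, 4, 0, 2⟩,
  ⟨0, 4, 0, 3⟩, ⟨0, 4, 1, 0⟩, ⟨0, 4, 1, 1⟩, ⟨0, 4, 2, 3⟩, ⟨0, 4, 2, 4⟩, ⟨0, 4, 3, 1⟩,
  ⟨0, 4, 3, 2⟩, ⟨0, 4, 4, 0⟩, ⟨0, 4, 4, 4⟩, ⟨1, 0, 0, 0⟩, ⟨1, 0, 1, 3⟩, ⟨1, 0, 2, 1⟩,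
  ⟨1, 0, 3, 4⟩, ⟨1, 0, 4, 2⟩, ⟨1, 2, 0, 2⟩, ⟨1, 2, 0, 3⟩, ⟨1, 2, 1, 0⟩, ⟨1, 2, 1, 1⟩,
  ⟨1, 2, 2, 3⟩, ⟨1, 2, 2, 4⟩, ⟨1, 2, 3, 1⟩, ⟨1, 2, 3, 2⟩, ⟨1, 2, 4, 0⟩, ⟨1, 2, 4, 4⟩,
  ⟨2, 0, 0, 2⟩, ⟨2, 0, 0, 3⟩, ⟨2, 0, 1, 0⟩, ⟨2, 0, 1, 1⟩, ⟨2, 0, 2, 3⟩, ⟨2, 0, 2, 4⟩,
  ⟨2, 0, 3, 1⟩, ⟨2, 0, 3, 2⟩, ⟨2, 0, 4, 0⟩, ⟨2, 0, 4, 4⟩, ⟨2, 3, 0, 0⟩, ⟨2, 3, 1, 3⟩,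
  ⟨2, 3, 2, 1⟩, ⟨2, 3, 3, 4⟩, ⟨2, 3, 4, 2⟩, ⟨3, 1, 0, 0⟩, ⟨3, 1, 1, 3⟩, ⟨3, 1, 2, 1⟩,
  ⟨3, 1, 3, 4⟩, ⟨3, 1, 4, 2⟩, ⟨3, 3, 0, 2⟩, ⟨3, 3, 0, 3⟩, ⟨3, 3, 1, 0⟩, ⟨3, 3, 1, 1⟩,
  ⟨3, 3, 2, 3⟩, ⟨3, 3, 2, 4⟩, ⟨3, 3, 3, 1⟩, ⟨3, 3, 3, 2⟩, ⟨3, 3, 4, 0⟩, ⟨3, 3, 4, 4⟩,
  ⟨4, 1, 0, 2⟩, ⟨4, 1, 0, 3⟩, ⟨4, 1, 1, 0⟩, ⟨4, 1, 1, 1⟩, ⟨4, 1, 2, 3⟩, ⟨4, 1, 2, 4⟩,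
  ⟨4, 1, 3, 1⟩, ⟨4, 1, 3, 2⟩, ⟨4, 1, 4, 0⟩, ⟨4, 1, 4, 4⟩, ⟨4, 4, 0, 0⟩, ⟨4, 4, 1, 3⟩,
  ⟨4, 4, 2, 1⟩, ⟨4, 4, 3, 4⟩, ⟨4, 4, 4, 2⟩]

/-- Level structure at `11`: a binary icosahedral group. -/
def lA : List (Q4 ℕ) := [
  ⟨0, 0, 2, 1⟩, ⟨0, 0, 3, 4⟩, ⟨0, 0, 3, 10⟩, ⟨0, 0, 4, 0⟩, ⟨0, 0, 4, 4⟩, ⟨0, 0, 7, 0⟩,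
  ⟨0, 0, 7, 7⟩, ⟨0, 0, 8, 1⟩, ⟨0, 0, 8, 7⟩, ⟨0, 0, 9, 10⟩, ⟨0, 1, 0, 1⟩, ⟨0, 1, 1, 2⟩,
  ⟨0, 1, 3, 5⟩, ⟨0, 1, 8, 2⟩, ⟨0, 1, 10, 1⟩, ⟨0, 3, 0, 7⟩, ⟨0, 3, 1, 3⟩, ⟨0, 3, 4, 7⟩,
  ⟨0, 3, 7, 3⟩, ⟨0, 3, 10, 2⟩, ⟨0, 8, 0, 4⟩, ⟨0, 8, 1, 9⟩, ⟨0, 8, 4, 8⟩, ⟨0, 8, 7, 4⟩,
  ⟨0, 8, 10, 8⟩, ⟨0, 10, 0, 10⟩, ⟨0, 10, 1, 10⟩, ⟨0, 10, 3, 9⟩, ⟨0, 10, 8, 6⟩, ⟨0, 10, 10, 9⟩,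
  ⟨1, 0, 0, 0⟩, ⟨1, 1, 0, 0⟩, ⟨1, 2, 0, 1⟩, ⟨1, 2, 1, 2⟩, ⟨1, 2, 3, 5⟩, ⟨1, 2, 8, 2⟩,
  ⟨1, 2, 10, 1⟩, ⟨1, 10, 0, 10⟩, ⟨1, 10, 1, 10⟩, ⟨1, 10, 3, 9⟩, ⟨1, 10, 8, 6⟩, ⟨1, 10, 10, 9⟩,
  ⟨2, 3, 0, 0⟩, ⟨2, 6, 0, 7⟩, ⟨2, 6, 1, 3⟩, ⟨2, 6, 4, 7⟩, ⟨2, 6, 7, 3⟩, ⟨2, 6, 10, 2⟩,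
  ⟨2, 7, 0, 4⟩, ⟨2, 7, 1, 9⟩, ⟨2, 7, 4, 8⟩, ⟨2, 7, 7, 4⟩, ⟨2, 7, 10, 8⟩, ⟨2, 10, 0, 0⟩,
  ⟨3, 5, 0, 1⟩, ⟨3, 5, 1, 2⟩, ⟨3, 5, 3, 5⟩, ⟨3, 5, 8, 2⟩, ⟨3, 5, 10, 1⟩, ⟨3, 6, 0, 7⟩,
  ⟨3, 6, 1, 3⟩, ⟨3, 6, 4, 7⟩, ⟨3, 6, 7, 3⟩, ⟨3, 6, 10, 2⟩, ⟨3, 8, 0, 4⟩, ⟨3, 8, 1, 9⟩,
  ⟨3, 8, 4, 8⟩, ⟨3, 8, 7, 4⟩, ⟨3, 8, 10, 8⟩, ⟨3, 9, 0, 10⟩, ⟨3, 9, 1, 10⟩, ⟨3, 9, 3, 9⟩,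
  ⟨3, 9, 8, 6⟩, ⟨3, 9, 10, 9⟩, ⟨5, 8, 0, 0⟩, ⟨6, 3, 0, 0⟩, ⟨8, 2, 0, 1⟩, ⟨8, 2, 1, 2⟩,
  ⟨8, 2, 3, 5⟩, ⟨8, 2, 8, 2⟩, ⟨8, 2, 10, 1⟩, ⟨8, 3, 0, 7⟩, ⟨8, 3, 1, 3⟩, ⟨8, 3, 4, 7⟩,
  ⟨8, 3, 7, 3⟩, ⟨8, 3, 10, 2⟩, ⟨8, 5, 0, 4⟩, ⟨8, 5, 1, 9⟩, ⟨8, 5, 4, 8⟩, ⟨8, 5, 7, 4⟩,
  ⟨8, 5, 10, 8⟩, ⟨8, 6, 0, 10⟩, ⟨8, 6, 1, 10⟩, ⟨8, 6, 3, 9⟩, ⟨8, 6, 8, 6⟩, ⟨8, 6, 10, 9⟩,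
  ⟨9, 1, 0, 0⟩, ⟨9, 4, 0, 7⟩, ⟨9, 4, 1, 3⟩, ⟨9, 4, 4, 7⟩, ⟨9, 4, 7, 3⟩, ⟨9, 4, 10, 2⟩,
  ⟨9, 5, 0, 4⟩, ⟨9, 5, 1, 9⟩, ⟨9, 5, 4, 8⟩, ⟨9, 5, 7, 4⟩, ⟨9, 5, 10, 8⟩, ⟨9, 8, 0, 0⟩,
  ⟨10, 0, 0, 0⟩, ⟨10, 1, 0, 1⟩, ⟨10, 1, 1, 2⟩, ⟨10, 1, 3, 5⟩, ⟨10, 1, 8, 2⟩, ⟨10, 1, 10, 1⟩,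
  ⟨10, 9, 0, 10⟩, ⟨10, 9, 1, 10⟩, ⟨10, 9, 3, 9⟩, ⟨10, 9, 8, 6⟩, ⟨10, 9, 10, 9⟩, ⟨10, 10, 0, 0⟩]

/-- Level structure at `17`: a binary octahedral group. -/
def lB : List (Q4 ℕ) := [
  ⟨0, 0, 0, 2⟩, ⟨0, 0, 0, 15⟩, ⟨0, 0, 1, 8⟩, ⟨0, 0, 1, 10⟩, ⟨0, 0, 16, 7⟩, ⟨0, 0, 16, 9⟩,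
  ⟨1, 0, 0, 0⟩, ⟨1, 14, 2, 7⟩, ⟨1, 14, 2, 12⟩, ⟨1, 14, 13, 15⟩, ⟨1, 15, 5, 11⟩, ⟨1, 15, 6, 2⟩,
  ⟨1, 15, 6, 4⟩, ⟨2, 14, 2, 7⟩, ⟨2, 14, 2, 12⟩, ⟨2, 14, 13, 15⟩, ⟨3, 11, 4, 2⟩, ⟨3, 11, 15, 5⟩,
  ⟨3, 11, 15, 10⟩, ⟨4, 8, 0, 0⟩, ⟨5, 1, 5, 11⟩, ⟨5, 1, 6, 2⟩, ⟨5, 1, 6, 4⟩, ⟨5, 8, 0, 0⟩,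
  ⟨6, 16, 11, 13⟩, ⟨6, 16, 11, 15⟩, ⟨6, 16, 12, 6⟩, ⟨11, 1, 5, 11⟩, ⟨11, 1, 6, 2⟩, ⟨11, 1, 6, 4⟩,
  ⟨12, 9, 0, 0⟩, ⟨12, 16, 11, 13⟩, ⟨12, 16, 11, 15⟩, ⟨12, 16, 12, 6⟩, ⟨13, 9, 0, 0⟩, ⟨14, 6, 2, 7⟩,
  ⟨14, 6, 2, 12⟩, ⟨14, 6, 13, 15⟩, ⟨15, 3, 4, 2⟩, ⟨15, 3, 15, 5⟩, ⟨15, 3, 15, 10⟩, ⟨16, 0, 0, 0⟩,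
  ⟨16, 2, 11, 13⟩, ⟨16, 2, 11, 15⟩, ⟨16, 2, 12, 6⟩, ⟨16, 3, 4, 2⟩, ⟨16, 3, 15, 5⟩, ⟨16, 3, 15, 10⟩]

/-- Level structure at `7`: a binary octahedral group. -/
def lP : List (Q4 ℕ) := [
  ⟨0, 0, 1, 0⟩, ⟨0, 0, 2, 3⟩, ⟨0, 0, 5, 4⟩, ⟨0, 0, 6, 0⟩, ⟨0, 1, 3, 0⟩, ⟨0, 1, 4, 0⟩,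
  ⟨0, 6, 3, 0⟩, ⟨0, 6, 4, 0⟩, ⟨1, 0, 0, 0⟩, ⟨1, 2, 1, 5⟩, ⟨1, 2, 6, 2⟩, ⟨1, 5, 1, 2⟩,
  ⟨1, 5, 3, 5⟩, ⟨1, 5, 4, 2⟩, ⟨1, 5, 6, 5⟩, ⟨1, 6, 3, 0⟩, ⟨1, 6, 4, 0⟩, ⟨2, 0, 2, 0⟩,
  ⟨2, 0, 5, 0⟩, ⟨2, 3, 0, 0⟩, ⟨3, 0, 0, 1⟩, ⟨3, 0, 0, 6⟩, ⟨3, 0, 1, 6⟩, ⟨3, 0, 6, 1⟩,
  ⟨3, 1, 3, 1⟩, ⟨3, 1, 4, 6⟩, ⟨3, 5, 1, 5⟩, ⟨3, 5, 6, 2⟩, ⟨4, 0, 0, 1⟩, ⟨4, 0, 0, 6⟩,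
  ⟨4, 0, 1, 6⟩, ⟨4, 0, 6, 1⟩, ⟨4, 2, 1, 5⟩, ⟨4, 2, 6, 2⟩, ⟨4, 6, 3, 1⟩, ⟨4, 6, 4, 6⟩,
  ⟨5, 0, 2, 0⟩, ⟨5, 0, 5, 0⟩, ⟨5, 4, 0, 0⟩, ⟨6, 0, 0, 0⟩, ⟨6, 1, 3, 0⟩, ⟨6, 1, 4, 0⟩,
  ⟨6, 2, 1, 2⟩, ⟨6, 2, 3, 5⟩, ⟨6, 2, 4, 2⟩, ⟨6, 2, 6, 5⟩, ⟨6, 5, 1, 5⟩, ⟨6, 5, 6, 2⟩]

/-- Level structure at `7`: another binary octahedral group. -/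
def lL : List (Q4 ℕ) := [
  ⟨0, 0, 1, 0⟩, ⟨0, 0, 6, 0⟩, ⟨0, 1, 1, 5⟩, ⟨0, 3, 1, 4⟩, ⟨0, 3, 2, 4⟩, ⟨0, 4, 5, 3⟩,
  ⟨0, 4, 6, 3⟩, ⟨0, 6, 6, 2⟩, ⟨1, 0, 0, 0⟩, ⟨1, 2, 6, 2⟩, ⟨1, 4, 0, 4⟩, ⟨1, 4, 3, 4⟩,
  ⟨1, 5, 0, 6⟩, ⟨1, 5, 1, 2⟩, ⟨1, 5, 1, 6⟩, ⟨1, 5, 4, 2⟩, ⟨1, 6, 6, 2⟩, ⟨2, 2, 4, 6⟩,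
  ⟨2, 4, 0, 4⟩, ⟨2, 4, 3, 4⟩, ⟨3, 1, 2, 2⟩, ⟨3, 1, 3, 1⟩, ⟨3, 1, 3, 2⟩, ⟨3, 1, 4, 6⟩,
  ⟨3, 2, 4, 6⟩, ⟨3, 4, 5, 3⟩, ⟨3, 4, 6, 3⟩, ⟨3, 5, 1, 5⟩, ⟨4, 2, 6, 2⟩, ⟨4, 3, 1, 4⟩,
  ⟨4, 3, 2, 4⟩, ⟨4, 5, 3, 1⟩, ⟨4, 6, 3, 1⟩, ⟨4, 6, 4, 5⟩, ⟨4, 6, 4, 6⟩, ⟨4, 6, 5, 5⟩,
  ⟨5, 3, 0, 3⟩, ⟨5, 3, 4, 3⟩, ⟨5, 5, 3, 1⟩, ⟨6, 0, 0, 0⟩, ⟨6, 1, 1, 5⟩, ⟨6, 2, 0, 1⟩,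
  ⟨6, 2, 3, 5⟩, ⟨6, 2, 6, 1⟩, ⟨6, 2, 6, 5⟩, ⟨6, 3, 0, 3⟩, ⟨6, 3, 4, 3⟩, ⟨6, 5, 1, 5⟩]

/-- Level structure at `7`: the intersection of the two binary octahedral groups, of order `16`. -/
def lH : List (Q4 ℕ) := [
  ⟨0, 0, 1, 0⟩, ⟨0, 0, 6, 0⟩, ⟨1, 0, 0, 0⟩, ⟨1, 2, 6, 2⟩, ⟨1, 5, 1, 2⟩, ⟨1, 5, 4, 2⟩,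
  ⟨3, 1, 3, 1⟩, ⟨3, 1, 4, 6⟩, ⟨3, 5, 1, 5⟩, ⟨4, 2, 6, 2⟩, ⟨4, 6, 3, 1⟩, ⟨4, 6, 4, 6⟩,
  ⟨6, 0, 0, 0⟩, ⟨6, 2, 3, 5⟩, ⟨6, 2, 6, 5⟩, ⟨6, 5, 1, 5⟩]

end Pool.Agent.E8helper58.HM
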