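import Pool.Agent.H85R3.HSDefs

/-! Definitions for the statement on pair correlation of the spectrum of arithmetic surfaces. -/

set_option autoImplicit false

open scoped MatrixGroups Quaternion NumberField Topology UpperHalfPlane
open Filter

namespace Pool.Agent.E8helper58.HM.Main

/-- The pair correlation function of the sequence `x`:
`R₂(N; [a, b]) = (1 / N) #{(j, k) : 0 ≤ j, k < N, j ≠ k, a ≤ x j - x k ≤ b}`. -/
noncomputable def R2 (x : ℕ → ℝ) (N : ℕ) (a b : ℝ) : ℝ :=
  (Set.ncard {p : ℕ × ℕ | p.1 < N ∧ p.2 < N ∧ p.1 ≠ p.2 ∧ a ≤ x p.1 - x p.2 ∧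
    x p.1 - x p.2 ≤ b} : ℝ) / N

/-- The pair correlation of the sequence `x` is Poissonian: `R₂(N; [a, b]) → b - a` for all
`a < b`. -/
def PoissonianPairCorrelation (x : ℕ → ℝ) : Prop :=
  ∀ a b : ℝ, a < b → Tendsto (fun N : ℕ => R2 x N a b) atTop (𝓝 (b - a))

/-- The image in `PSL(2, ℝ)` of a subgroup of `SL(2, ℝ)`. -/
noncomputable def imagePSL (Γ : Subgroup SL(2, ℝ)) : Subgroup PSL(2, ℝ) :=
  Γ.map (QuotientGroup.mk' (Subgroup.center SL(2, ℝ)))

/-- `O` is an order (over the ring of integers of the number field `F`) of the quaternion algebra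
`(a, b / F)`: a subring that contains the ring of integers, is finitely generated as an additive
group, and spans the quaternion algebra. -/
structure IsOrder {F : Type} [Field F] [NumberField F] {a b : F} (O : Subring ℍ[F,a,b]) :
    Prop where
  integers_mem : ∀ x : 𝓞 F, algebraMap F ℍ[F,a,b] (x : F) ∈ O
  fg : O.toAddSubgroup.FG
  span_eq_top : Submodule.span F (O : Set ℍ[F,a,b]) = ⊤

/-- The norm-one units of `O` (the `q ∈ O` whose conjugate is in `O`, with `q * star q = 1`), seen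
in `SL(2, ℝ)` through the representation `ρ`. -/
def normOneUnits {F : Type} [Field F] {a b : F} (ρ : ℍ[F,a,b] →+* Matrix (Fin 2) (Fin 2) ℝ)
    (O : Subring ℍ[F,a,b]) : Subgroup SL(2, ℝ) where
  carrier := {g | ∃ q : ℍ[F,a,b], q ∈ O ∧ star q ∈ O ∧ q * star q = 1 ∧ star q * q = 1 ∧ g.1 = ρ q}
  one_mem' := ⟨1, O.one_mem, by simp, by simp, by simp, by simp⟩
  mul_mem' := by
    rintro g g' ⟨q, h1, h2, h3, h4, h5⟩ ⟨q', h1', h2', h3', h4', h5'⟩
    refine ⟨q * q', O.mul_mem h1 h1', ?_, ?_, ?_, ?_⟩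
    · rw [star_mul]
      exact O.mul_mem h2' h2
    · rw [star_mul, mul_assoc, ← mul_assoc q', h3', one_mul, h3]
    · rw [star_mul, mul_assoc, ← mul_assoc (star q), h4, one_mul, h4']
    · rw [Matrix.SpecialLinearGroup.coe_mul, h5, h5', map_mul]
  inv_mem' := by
    rintro g ⟨q, h1, h2, h3, h4, h5⟩
    refine ⟨star q, h2, by simpa using h1, by simpa using h4, by simpa using h3, ?_⟩
    have e1 : g.1 * (g⁻¹).1 = 1 := by
      rw [← Matrix.SpecialLinearGroup.coe_mul, mul_inv_cancel]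
      rfl
    have e2 : ρ (star q) * g.1 = 1 := by rw [h5, ← map_mul, h4, map_one]
    calc (g⁻¹).1 = ρ (star q) * g.1 * (g⁻¹).1 := by rw [e2, Matrix.one_mul]
      _ = ρ (star q) := by rw [Matrix.mul_assoc, e1, Matrix.mul_one]

/-- The image of `Γ` in `PSL(2, ℝ)` is an arithmetic Fuchsian group: it is commensurable with the
image of the norm-one units of an order `O` of a quaternion algebra `(a, b / F)` over a totally real
number field `F`, through a representation `ρ` over a real place `σ` (so the algebra splits at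
`σ`), the algebra being ramified at every other real place `τ` (that is, `τ a < 0` and
`τ b < 0`). -/
def IsArithmetic (Γ : Subgroup SL(2, ℝ)) : Prop :=
  ∃ (F : Type) (_ : Field F) (_ : NumberField F) (a b : F) (σ : F →+* ℝ)
    (ρ : ℍ[F,a,b] →+* Matrix (Fin 2) (Fin 2) ℝ) (O : Subring ℍ[F,a,b]),
    NumberField.IsTotallyReal F ∧ a ≠ 0 ∧ b ≠ 0 ∧
    (∀ x : F, ρ (algebraMap F ℍ[F,a,b] x) = algebraMap ℝ (Matrix (Fin 2) (Fin 2) ℝ) (σ x)) ∧
    (∀ τ : F →+* ℝ, τ ≠ σ → τ a < 0 ∧ τ b < 0) ∧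
    IsOrder O ∧ (imagePSL Γ).Commensurable (imagePSL (normOneUnits ρ O))

end Pool.Agent.E8helper58.HM.Main
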