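import Pool.Agent.E8helper58.HM.Norm2
import Pool.Agent.E8helper58.HM.Defs

/-! The normaliser, last part. -/

set_option autoImplicit false

open scoped MatrixGroups UpperHalfPlane
open UpperHalfPlane Pool.Agent.H85R3.HS

namespace Pool.Agent.E8helper58.HM

open Q4

/-- `-1` belongs to the level structure. -/
theorem In.neg {p : ℕ} (hp : 0 < p) {l : List (Q4 ℕ)} (hl : IsGrp p l)
    (h1 : In p l (Q4.smul (-1) 1)) {x : Q4 ℤ} (h : In p l x) : In p l (Q4.smul (-1) x) := by
  have h2 := h1.mul hp hl h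
  have h3 : Q4.smul (-1) 1 * x = Q4.smul (-1) x := by
    rw [smul_mul, one_mul]
  rwa [h3] at h2

theorem neg_A : In 11 lA (Q4.smul (-1) 1) := by decide +kernel
theorem neg_B : In 17 lB (Q4.smul (-1) 1) := by decide +kernel
theorem neg_H : In 7 lH (Q4.smul (-1) 1) := by decide +kernel

/-- Application of the rigidity check. -/
theorem apply_rig {p n : ℕ} (hp : 0 < p) {N : ℕ} {l lq : List (Q4 ℕ)} (hlq : ∀ x ∈ lq, Red p x)
    (hrig : rigChk p n (mask p (sml p N l)) (mask p lq) (rd p g1) (rd p g2) (List.range p) = true)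
    {x y1 y2 : Q4 ℤ} (hn : ((N : ℤ) % p).toNat = n) (hx : Q4.nf x = N)
    (h1 : x * g1 * conj x = Q4.smul (N : ℤ) y1) (h2 : x * g2 * conj x = Q4.smul (N : ℤ) y2)
    (hy1 : In p l y1) (hy2 : In p l y2) : rd p x ∈ lq := by
  refine rig_spec hlq hrig (rd p x) (red_rd hp x) ?_ ?_ ?_
  · rw [nnf_rd hp, hx, hn]
  · rw [← rd_mul hp, ← rd_conj hp, ← rd_mul hp, h1, rd_smul hp]
    exact List.mem_map_of_mem hy1
  · rw [← rd_mul hp, ← rd_conj hp, ← rd_mul hp, h2, rd_smul hp]
    exact List.mem_map_of_mem hy2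

/-- The check for the level structure at `5`. -/
def chk5 (r : List ℕ) (m : ℕ) : Bool :=
  loop4 r fun q => !(Nat.beq (nnf 5 q) 1) || m.testBit (code 5 q) ||
    m.testBit (code 5 (nsm 5 4 q))

theorem chk5_true : chk5 (List.range 5) (mask 5 l5) = true := by decide +kernel

theorem rd_neg {p : ℕ} (hp : 0 < p) (x : Q4 ℤ) :
    rd p (Q4.smul (-1) x) = nsm p (p - 1) (rd p x) := by
  have h1 : Q4.smul (-1) x = ⟨-x.a, -x.b, -x.c, -x.d⟩ := by
    unfold Q4.smul
    ext <;> simp
  have e1 : ((rd p x).a : ZMod p) = x.a := cast_rd hp _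
  have e2 : ((rd p x).b : ZMod p) = x.b := cast_rd hp _
  have e3 : ((rd p x).c : ZMod p) = x.c := cast_rd hp _
  have e4 : ((rd p x).d : ZMod p) = x.d := cast_rd hp _
  rw [h1]
  unfold nsm
  ext
  · refine toNat_eq hp ?_
    push_cast [Nat.cast_sub (show 1 ≤ p from hp)]
    rw [e1, ZMod.natCast_self]; ring
  · refine toNat_eq hp ?_
    push_cast [Nat.cast_sub (show 1 ≤ p from hp)]
    rw [e2, ZMod.natCast_self]; ring
  · refine toNat_eq hp ?_
    push_cast [Nat.cast_sub (show 1 ≤ p from hp)]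
    rw [e3, ZMod.natCast_self]; ring
  · refine toNat_eq hp ?_
    push_cast [Nat.cast_sub (show 1 ≤ p from hp)]
    rw [e4, ZMod.natCast_self]; ring

theorem five_cases {x : Q4 ℤ} (hx : Q4.nf x = 1) : In 5 l5 x ∨ In 5 l5 (Q4.smul (-1) x) := by
  have h1 := loop4_spec chk5_true (rd 5 x) (red_rd (by norm_num) x)
  have h2 : Nat.beq (nnf 5 (rd 5 x)) 1 = true := by
    rw [nnf_rd (by norm_num), hx]; rfl
  rw [h2] at h1
  simp only [Bool.not_true, Bool.false_or, Bool.or_eq_true] at h1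
  rcases h1 with h1 | h1
  · exact Or.inl (mem_of_mask grp5.red (red_rd (by norm_num) x) h1)
  · right
    unfold In
    rw [rd_neg (by norm_num)]
    exact mem_of_mask grp5.red (red_nsm (by norm_num) _ _) h1

/-- Elements of `SL(2, ℝ)` normalising the group up to sign belong to it up to sign. -/
theorem normalizer_core {g : SL(2, ℝ)} (h : Nrm g) : g ∈ GamH ∨ -g ∈ GamH := by
  obtain ⟨u, hu⟩ := exists_trace g
  obtain ⟨w, hw⟩ := h.mult u
  set s : ℝ := 130 * (g⁻¹.1 * om u).trace with hs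
  have hs0 : s ≠ 0 := mul_ne_zero (by norm_num) hu
  have hdet : g.1.det = 1 := g.2
  have hw0 : w ≠ ⟨0, 0, 0, 0⟩ := by
    rintro rfl
    have h1 := congrArg Matrix.det hw
    rw [Matrix.det_smul, hdet, det_om] at h1
    simp [Q4.nf] at h1
    exact hs0 h1
  obtain ⟨m, x, hm, hprim, rfl⟩ := exists_prim w hw0
  have hmR : (m : ℝ) ≠ 0 := by exact_mod_cast hm
  -- `g = c om x`
  obtain ⟨c, hc0, hc⟩ : ∃ c : ℝ, c ≠ 0 ∧ g.1 = c • om x := by
    refine ⟨m / s, div_ne_zero hmR hs0, ?_⟩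
    rw [om_smul] at hw
    rw [div_eq_inv_mul, mul_smul, ← hw, smul_smul, inv_mul_cancel₀ hs0, one_smul]
  have hcn : c ^ 2 * ((Q4.nf x : ℤ) : ℝ) = 1 := by
    rw [← det_om, ← hdet, hc, Matrix.det_smul]
    simp
  have hn0 : 0 < Q4.nf x := by
    have h1 : (0 : ℝ) < ((Q4.nf x : ℤ) : ℝ) := by
      by_contra hcon
      push Not at hcon
      nlinarith [sq_nonneg c, mul_nonneg (sq_nonneg c) (neg_nonneg.mpr hcon)]
    exact_mod_cast h1
  -- conjugation
  have hconj : ∀ e y : Q4 ℤ, g.1 * om e = om y * g.1 →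
      x * e * conj x = Q4.smul (Q4.nf x) y := by
    intro e y hy
    rw [hc, Matrix.smul_mul, Matrix.mul_smul, om_mul, om_mul] at hy
    have h1 : x * e = y * x := om_injective (smul_right_injective _ hc0 hy)
    rw [h1, mul_assoc, mul_conj, Q4.mul_smul', mul_one]
  have hall : ∀ e : Q4 ℤ, ∃ y, x * e * conj x = Q4.smul (Q4.nf x) y := by
    intro e
    obtain ⟨y, hy⟩ := h.all e
    exact ⟨y, hconj e y hy⟩
  have hcases := norm_cases hprim rfl hn0 hall
  obtain ⟨y1, hy1, y1', hb1, h71, hs1⟩ := h.conj_gen base_g1.1 base_g1.2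
  obtain ⟨y2, hy2, y2', hb2, h72, hs2⟩ := h.conj_gen base_g2.1 base_g2.2
  have k1 := hconj _ _ hy1
  have k2 := hconj _ _ hy2
  have inA : ∀ y y' : Q4 ℤ, Base y' → (y = y' ∨ y = Q4.smul (-1) y') → In 11 lA y := by
    rintro y y' hb (rfl | rfl)
    · exact hb.2.2.1
    · exact In.neg (by norm_num) grpA neg_A hb.2.2.1
  have inB : ∀ y y' : Q4 ℤ, Base y' → (y = y' ∨ y = Q4.smul (-1) y') → In 17 lB y := by
    rintro y y' hb (rfl | rfl)
    · exact hb.2.2.2
    · exact In.neg (by norm_num) grpB neg_B hb.2.2.2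
  have inH : ∀ y y' : Q4 ℤ, In 7 lH y' → (y = y' ∨ y = Q4.smul (-1) y') → In 7 lH y := by
    rintro y y' hb (rfl | rfl)
    · exact hb
    · exact In.neg (by norm_num) grpH neg_H hb
  have hnil : ∀ p : ℕ, ∀ x ∈ ([] : List (Q4 ℕ)), Red p x := fun p x hx => by simp at hx
  rcases hcases with hn | hn | hn | hn
  · -- norm one
    rw [hn] at k1 k2
    have r11 := apply_rig (by norm_num) grpA.red rig11_1 (x := x) (by rfl) (by exact_mod_cast hn)
      k1 k2 (inA _ _ hb1 hs1) (inA _ _ hb2 hs2)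
    have r17 := apply_rig (by norm_num) grpB.red rig17_1 (x := x) (by rfl) (by exact_mod_cast hn)
      k1 k2 (inB _ _ hb1 hs1) (inB _ _ hb2 hs2)
    have r7 := apply_rig (by norm_num) grpH.red rig7_1 (x := x) (by rfl) (by exact_mod_cast hn)
      k1 k2 (inH _ _ h71 hs1) (inH _ _ h72 hs2)
    have hnx : Q4.nf (Q4.smul (-1) x) = 1 := by
      unfold Q4.nf Q4.smul at *
      simp only
      linarith
    have hc2 : c = 1 ∨ c = -1 := by
      rw [hn] at hcn
      push_cast at hcn
      rw [mul_one] at hcn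
      have h9 : (c - 1) * (c + 1) = 0 := by linear_combination hcn
      rcases mul_eq_zero.mp h9 with h9 | h9
      · left; linarith
      · right; linarith
    have hgx : g.1 = om x ∨ -g.1 = om x := by
      rcases hc2 with rfl | rfl
      · left; rw [hc, one_smul]
      · right; rw [hc]; simp
    have hneg : (-g).1 = -g.1 := by simp
    have hbase : (Base x ∧ In 7 lH x) ∨ (Base (Q4.smul (-1) x) ∧ In 7 lH (Q4.smul (-1) x)) := by
      rcases five_cases hn with h5 | h5
      · exact Or.inl ⟨⟨hn, h5, r11, r17⟩, r7⟩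
      · exact Or.inr ⟨⟨hnx, h5, In.neg (by norm_num) grpA neg_A r11,
          In.neg (by norm_num) grpB neg_B r17⟩, In.neg (by norm_num) grpH neg_H r7⟩
    rcases hbase with ⟨hb, h7⟩ | ⟨hb, h7⟩
    · rcases hgx with hg | hg
      · exact Or.inl ⟨x, hg, hb, h7⟩
      · exact Or.inr ⟨x, by rw [hneg, hg], hb, h7⟩
    · rcases hgx with hg | hg
      · exact Or.inr ⟨_, by rw [hneg, hg, om_neg], hb, h7⟩
      · exact Or.inl ⟨_, by rw [← om_neg, ← hg, neg_neg], hb, h7⟩
  · rw [hn] at k1 k2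
    have := apply_rig (by norm_num) (hnil 17) rig17_5 (x := x) (N := 5) (by rfl)
      (by exact_mod_cast hn) k1 k2 (inB _ _ hb1 hs1) (inB _ _ hb2 hs2)
    simp at this
  · rw [hn] at k1 k2
    have := apply_rig (by norm_num) (hnil 11) rig11_2 (x := x) (N := 13) (by rfl)
      (by exact_mod_cast hn) k1 k2 (inA _ _ hb1 hs1) (inA _ _ hb2 hs2)
    simp at this
  · rw [hn] at k1 k2
    have := apply_rig (by norm_num) (hnil 11) rig11_10 (x := x) (N := 65) (by rfl)
      (by exact_mod_cast hn) k1 k2 (inA _ _ hb1 hs1) (inA _ _ hb2 hs2)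
    simp at this

/-- An element of the centre of `SL(2, ℝ)` is `± 1`. -/
theorem center_cases {z : SL(2, ℝ)} (hz : z ∈ Subgroup.center SL(2, ℝ)) : z = 1 ∨ z = -1 := by
  obtain ⟨r, hr, hr'⟩ := Matrix.SpecialLinearGroup.mem_center_iff.mp hz
  simp only [Fintype.card_fin] at hr
  have h9 : (r - 1) * (r + 1) = 0 := by linear_combination hr
  rcases mul_eq_zero.mp h9 with h9 | h9
  · left
    have h10 : r = 1 := by linarith
    subst h10
    apply Subtype.ext
    rw [← hr']
    simp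
  · right
    have h10 : r = -1 := by linarith
    subst h10
    apply Subtype.ext
    rw [← hr']
    ext i j
    fin_cases i <;> fin_cases j <;> simp

/-- The normaliser in `PSL(2, ℝ)` of the image of the group is the image of the group. -/
theorem normalizer_eq :
    Subgroup.normalizer (Main.imagePSL GamH : Set PSL(2, ℝ)) = Main.imagePSL GamH := by
  apply le_antisymm _ Subgroup.le_normalizer
  intro q hq
  obtain ⟨g, rfl⟩ := QuotientGroup.mk'_surjective (Subgroup.center SL(2, ℝ)) q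
  have hn : Nrm g := by
    intro γ hγ
    have h1 := (Subgroup.mem_normalizer_iff.mp hq (QuotientGroup.mk' _ γ)).mp
      (Subgroup.mem_map_of_mem _ hγ)
    obtain ⟨γ', hγ', he⟩ := h1
    rw [← map_mul, ← map_inv, ← map_mul, QuotientGroup.mk'_eq_mk'] at he
    obtain ⟨z, hz, hz2⟩ := he
    refine ⟨γ', hγ', ?_⟩
    have h2 : g * γ = γ' * z * g := by rw [hz2]; group
    rcases center_cases hz with rfl | rfl
    · left
      rw [← Matrix.SpecialLinearGroup.coe_mul, h2, mul_one]
      rfl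
    · right
      rw [← Matrix.SpecialLinearGroup.coe_mul, h2]
      simp
  rcases normalizer_core hn with h | h
  · exact Subgroup.mem_map_of_mem _ h
  · refine ⟨-g, h, ?_⟩
    rw [QuotientGroup.mk'_eq_mk']
    refine ⟨-1, ?_, by simp⟩
    rw [Matrix.SpecialLinearGroup.mem_center_iff]
    refine ⟨-1, by norm_num, ?_⟩
    ext i j
    fin_cases i <;> fin_cases j <;> simp

end Pool.Agent.E8helper58.HM
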