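import Pool.Agent.E8helper54.HM.Abs
import Pool.Agent.E8helper46.HM.Test
import Pool.Agent.E8helper80.HM.Avg3
import Pool.Agent.E8helper37.HM.Coc
import Pool.Agent.E8helper58.HM.Norm3

/-! Assembly. -/

set_option autoImplicit false

open scoped MatrixGroups UpperHalfPlane ContDiff ENNReal Topology Pointwise
open MeasureTheory UpperHalfPlane Filter Pool.Agent.H85R3.HS

namespace Pool.Agent.E8helper58.HM

theorem smooth_of_le {Γ Γ' : Subgroup SL(2, ℝ)} (h : Γ ≤ Γ') {f : ℍ → ℝ} (hf : IsSmoothOn Γ' f) :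
    IsSmoothOn Γ f := ⟨hf.smooth, fun g hg z => hf.invariant g (h hg) z⟩

theorem lint_unfold {Γ Γ' : Subgroup SL(2, ℝ)} {S : ℝ} {m : ℕ} {c : Fin m → SL(2, ℝ)}
    (hM : MovesFar Γ S) (hS : 0 < S) (hR : IsReps Γ Γ' c) {D D1 : Set ℍ}
    (hD : IsFundamentalDomain Γ D (volume : Measure ℍ))
    (hD1m : MeasurableSet D1) (hD1 : IsFundamentalDomain Γ' D1 (volume : Measure ℍ))
    {F : ℍ → ℝ≥0∞} (hF : ∀ g ∈ Γ', ∀ z, F (g • z) = F z) :
    ∫⁻ z in D, F z = m * ∫⁻ z in D1, F z := by
  have : Countable Γ := hM.countable hS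
  have hU := Pool.Agent.E8helper80.HM.union_domain hR hD1m hD1
  rw [hD.setLIntegral_eq hU F (fun g z => hF g.1 (hR.1 g.2) z),
    lintegral_iUnion₀ (fun i => (hD1m.const_smul (c i)).nullMeasurableSet)
      (Pool.Agent.E8helper80.HM.reps_aedisjoint hR hD1), tsum_fintype]
  have h1 : ∀ i, ∫⁻ z in c i • D1, F z = ∫⁻ z in D1, F z := by
    intro i
    have h2 := (measurePreserving_smul (c i) (volume : Measure ℍ)).setLIntegral_comp_emb
      (measurableEmbedding_const_smul (c i)) F D1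
    have h3 : ∫⁻ z in c i • D1, F z = ∫⁻ z in D1, F (c i • z) := h2.symm
    rw [h3]
    refine lintegral_congr fun z => hF _ (hR.2.1 i) z
  simp only [h1]
  rw [Finset.sum_const, Finset.card_univ, Fintype.card_fin, nsmul_eq_mul]

/-- The Rayleigh quotient does not change in a finite covering. -/
theorem rayleigh_transfer {Γ Γ' : Subgroup SL(2, ℝ)} {S S' : ℝ} {m : ℕ} {c : Fin m → SL(2, ℝ)}
    (hM : MovesFar Γ S) (hS : 0 < S) (hM' : MovesFar Γ' S') (hS' : 0 < S') (hR : IsReps Γ Γ' c)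
    {f : ℍ → ℝ} (hf : IsSmoothOn Γ' f) {t : ℝ} (h : RayleighLE Γ' f t) : RayleighLE Γ f t := by
  intro D hD
  obtain ⟨D1, hD1m, hD1⟩ := hM'.exists_domain hS'
  rw [lint_unfold hM hS hR hD hD1m hD1 (F := fun z => ENNReal.ofReal (gradSq f z)) ?_,
    lint_unfold hM hS hR hD hD1m hD1 (F := fun z => ENNReal.ofReal (f z ^ 2)) ?_]
  · calc (m : ℝ≥0∞) * ∫⁻ z in D1, ENNReal.ofReal (gradSq f z)
        ≤ m * (ENNReal.ofReal t * ∫⁻ z in D1, ENNReal.ofReal (f z ^ 2)) := by
          gcongr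
          exact h D1 hD1
      _ = _ := by ring
  · intro g hg z
    simp only [hf.invariant g hg z]
  · intro g hg z
    congr 1
    have h1 := (Pool.Agent.E8helper80.HM.CI_gradIn hf hf).inv g hg z
    rwa [Pool.Agent.E8helper80.HM.gradIn_self, Pool.Agent.E8helper80.HM.gradIn_self] at h1

theorem movesFarH : MovesFar GamH 1 := movesFar_grp _
theorem movesFarP : MovesFar GamP 1 := movesFar_grp _
theorem movesFarL : MovesFar GamL 1 := movesFar_grp _
theorem movesFar0 : MovesFar Gam0 1 := movesFar_grp _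

theorem cocompactH : ∃ K : Set ℍ, IsCompact K ∧ ∀ z : ℍ, ∃ g ∈ GamH, g • z ∈ K := by
  obtain ⟨K, hK, h⟩ := Pool.Agent.E8helper37.HM.coc 6545 (by norm_num)
  refine ⟨K, hK, fun z => ?_⟩
  obtain ⟨g, hg, hz⟩ := h z
  exact ⟨g, cong_mem hg, hz⟩

theorem closedH : IsClosedSurface GamH :=
  ⟨movesFarH.discrete one_pos, movesFarH.free one_pos, cocompactH⟩

theorem area_pos : 0 < area GamH := by
  obtain ⟨D, hDm, hD⟩ := movesFarH.exists_domain one_pos
  obtain ⟨K, hK, hKc⟩ := cocompactH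
  have hfin : volume D < ⊤ := (movesFarH.volume_le_of_cover one_pos hD hKc).trans_lt hK.measure_lt_top
  have h1 : volume (Metric.ball UpperHalfPlane.I (1 / 2)) ≤ volume D := by
    refine movesFarH.volume_ge_of_packing one_pos hD Metric.isOpen_ball.measurableSet ?_
    intro g hg hg1 z hz hz'
    have h2 := movesFarH g hg hg1 z
    rw [Metric.mem_ball] at hz hz'
    have h3 := dist_triangle_right z (g • z) UpperHalfPlane.I
    linarith
  unfold area
  rw [movesFarH.area_eq one_pos hD]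
  refine ENNReal.toReal_pos ?_ hfin.ne
  intro h0
  rw [h0] at h1
  exact volume_ball_ne_zero (by norm_num) (le_antisymm h1 bot_le)

/-- The eigenvalues are the min-max values of the forms. -/
theorem eigenvalue_eq {Γ : Subgroup SL(2, ℝ)} {E B : LinearMap.BilinForm ℝ (smoothSub Γ)}
    (hRay : ∀ (f : smoothSub Γ) (t : ℝ), 0 ≤ t → (RayleighLE Γ f.1 t ↔ E f f ≤ t * B f f))
    (k : ℕ) : eigenvalue Γ k = mu E B k := by
  unfold eigenvalue mu
  congr 1
  ext t
  constructor
  · rintro ⟨ht, V, hV, h⟩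
    have hle : V ≤ smoothSub Γ := fun f hf => (h f hf).1
    refine ⟨ht, V.comap (smoothSub Γ).subtype, ?_, ?_⟩
    · rw [(Submodule.comapSubtypeEquivOfLe hle).finrank_eq, hV]
    · intro f hf
      exact (hRay f t ht).mp (h f.1 hf).2
  · rintro ⟨ht, V, hV, h⟩
    refine ⟨ht, V.map (smoothSub Γ).subtype, ?_, ?_⟩
    · rw [Submodule.finrank_map_subtype_eq, hV]
    · rintro _ ⟨f, hf, rfl⟩
      exact ⟨f.2, (hRay f t ht).mpr (h f hf)⟩

theorem not_poissonian :
    ¬ IsPoissonian fun k => area GamH / (4 * Real.pi) * eigenvalue GamH k := by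
  obtain ⟨E, B, hEs, hBs, hE0, hB0, hRay, hA⟩ :=
    Pool.Agent.E8helper80.HM.avg GamH 1 movesFarH one_pos cocompactH
  obtain ⟨AP, hP, hPs, hPi, hPE, hPB⟩ := hA GamP 1 3 cP movesFarP one_pos repsP
  obtain ⟨AL, hL, hLs, hLi, hLE, hLB⟩ := hA GamL 1 3 cL movesFarL one_pos repsL
  obtain ⟨A0, h0, h0s, h0i, h0E, h0B⟩ := hA Gam0 1 21 c0 movesFar0 one_pos reps0
  simp only [eigenvalue_eq hRay]
  have hP' : ∀ (f : smoothSub GamH) (z : ℍ), (AP f).1 z =
      3⁻¹ * (f.1 z + f.1 (sa • z) + f.1 (sa • sa • z)) := by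
    intro f z
    rw [hP, Fin.sum_univ_three]
    simp [cP, mul_smul]
  have hL' : ∀ (f : smoothSub GamH) (z : ℍ), (AL f).1 z =
      3⁻¹ * (f.1 z + f.1 (sb • z) + f.1 (sb • sb • z)) := by
    intro f z
    rw [hL, Fin.sum_univ_three]
    simp [cL, mul_smul]
  -- relations
  have PP : ∀ f, AP (AP f) = AP f := fun f => hPi _ (hPs f)
  have LL : ∀ f, AL (AL f) = AL f := fun f => hLi _ (hLs f)
  have OO : ∀ f, A0 (A0 f) = A0 f := fun f => h0i _ (h0s f)
  have PO : ∀ f, AP (A0 f) = A0 f := fun f => hPi _ (smooth_of_le GamP_le_Gam0 (h0s f))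
  have LO : ∀ f, AL (A0 f) = A0 f := fun f => hLi _ (smooth_of_le GamL_le_Gam0 (h0s f))
  have nondeg : ∀ f g : smoothSub GamH, (∀ k, B f k = B g k) → f = g := by
    intro f g hfg
    by_contra hne
    have h1 := hB0 (f - g) (sub_ne_zero.mpr hne)
    rw [LinearMap.map_sub₂, hfg, sub_self] at h1
    exact lt_irrefl _ h1
  have OP : ∀ f, A0 (AP f) = A0 f := by
    intro f
    apply nondeg
    intro k
    rw [h0B, hPB, PO, ← h0B]
  have OL : ∀ f, A0 (AL f) = A0 f := by
    intro f
    apply nondeg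
    intro k
    rw [h0B, hLB, LO, ← h0B]
  have key : ∀ f, AP (AL (AP f)) = (2 / 9 : ℝ) • AP f + (7 / 9 : ℝ) • A0 f := by
    intro f
    have inv : ∀ w : ℍ, f.1 (sa • sa • sa • w) = f.1 w := by
      intro w
      have := f.2.invariant _ sa_cube w
      rwa [mul_smul, mul_smul] at this
    apply Subtype.ext
    funext z
    rw [Submodule.coe_add, Submodule.coe_smul, Submodule.coe_smul, Pi.add_apply, Pi.smul_apply,
      Pi.smul_apply, h0]
    simp only [hP', hL', inv, Fin.sum_univ_succ, c0, smul_eq_mul]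
    simp [mul_smul]
    ring
  set e : smoothSub GamH →ₗ[ℝ] smoothSub GamH := AP - A0 with he
  set F : smoothSub GamH →ₗ[ℝ] smoothSub GamH := AL - A0 with hF
  have eapp : ∀ f, e f = AP f - A0 f := fun f => rfl
  have Fapp : ∀ f, F f = AL f - A0 f := fun f => rfl
  -- growth
  obtain ⟨C, hC0, hC⟩ := Pool.Agent.E8helper46.HM.s_test GamP Gam0 1 7 c7 sb movesFar0 one_pos reps7
    sb_mem sb_notMem
  have hgrowth : ∀ i : ℕ, ∃ V : Submodule ℝ (smoothSub GamH), V ≤ LinearMap.range e ∧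
      Module.finrank ℝ V = i + 1 ∧ ∀ f ∈ V, E f f ≤ C * (i + 1) * B f f := by
    intro i
    obtain ⟨V, hV, h⟩ := hC i
    have hle : V ≤ smoothSub GamH := fun f hf => smooth_of_le GamH_le_GamP (h f hf).1
    refine ⟨V.comap (smoothSub GamH).subtype, ?_, ?_, ?_⟩
    · intro f hf
      obtain ⟨h1, h2, -⟩ := h f.1 hf
      refine ⟨f, ?_⟩
      rw [eapp, hPi f h1]
      have h3 : A0 f = 0 := by
        apply Subtype.ext
        funext z
        rw [h0]
        have ia : ∀ w : ℍ, f.1 (sa • w) = f.1 w := by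
          intro w
          apply h1.invariant
          obtain ⟨j, hj⟩ : ∃ j, cP j = sa := ⟨1, rfl⟩
          rw [← hj]
          exact repsP.2.1 j
        have h4 := h2 z
        simp only [Fin.sum_univ_succ, c7] at h4
        simp only [Fin.sum_univ_succ, c0]
        simp [mul_smul, ia] at h4 ⊢
        linarith
      rw [h3, sub_zero]
    · rw [(Submodule.comapSubtypeEquivOfLe hle).finrank_eq, hV]
    · intro f hf
      obtain ⟨h1, -, h3⟩ := h f.1 hf
      exact (hRay f _ (by positivity)).mp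
        (rayleigh_transfer movesFarH one_pos movesFarP one_pos repsP h1 h3)
  refine Pool.Agent.E8helper54.HM.abs_part (smoothSub GamH) E B e F (2 / 9) C _ hEs hBs hE0 hB0
    ?_ ?_ ?_ (by norm_num) (by norm_num) ?_ ?_ ?_ ?_ hgrowth
    (div_pos area_pos (by positivity))
  · intro f
    simp only [eapp, map_sub, PP, PO, OP, OO]
    abel
  · intro f
    simp only [Fapp, map_sub, LL, LO, OL, OO]
    abel
  · intro f
    simp only [eapp, Fapp, map_sub, PO, LO, OL, OP, OO, key]
    module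
  · intro f g
    simp only [eapp, map_sub, LinearMap.sub_apply, hPE, h0E]
  · intro f g
    simp only [eapp, map_sub, LinearMap.sub_apply, hPB, h0B]
  · intro f g
    simp only [Fapp, map_sub, LinearMap.sub_apply, hLE, h0E]
  · intro f g
    simp only [Fapp, map_sub, LinearMap.sub_apply, hLB, h0B]

/-- The pair correlation of the surface is not Poissonian. -/
theorem not_main : ¬ Main.PoissonianPairCorrelation
    fun k => area GamH * eigenvalue GamH k / (4 * Real.pi) := by
  intro h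
  apply not_poissonian
  have h1 : (fun k => area GamH / (4 * Real.pi) * eigenvalue GamH k) =
      fun k => area GamH * eigenvalue GamH k / (4 * Real.pi) := by
    funext k
    ring
  rw [h1]
  exact h

end Pool.Agent.E8helper58.HM
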