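import Pool.Agent.E8helper58.HM.Rig
import Pool.Agent.E8helper58.HM.Stm

/-! The groups. -/

set_option autoImplicit false

open scoped MatrixGroups UpperHalfPlane
open UpperHalfPlane Pool.Agent.H85R3.HS

namespace Pool.Agent.E8helper58.HM

open Q4

/-- The level condition. -/
def In (p : ℕ) (l : List (Q4 ℕ)) (x : Q4 ℤ) : Prop := rd p x ∈ l

instance (p : ℕ) (l : List (Q4 ℕ)) (x : Q4 ℤ) : Decidable (In p l x) := by
  unfold In; infer_instance

theorem In.mul {p : ℕ} {l : List (Q4 ℕ)} (hp : 0 < p) (h : IsGrp p l) {x y : Q4 ℤ}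
    (hx : In p l x) (hy : In p l y) : In p l (x * y) := by
  unfold In at *
  rw [rd_mul hp]
  exact h.mul _ hx _ hy

theorem In.conj {p : ℕ} {l : List (Q4 ℕ)} (hp : 0 < p) (h : IsGrp p l) {x : Q4 ℤ}
    (hx : In p l x) : In p l (conj x) := by
  unfold In at *
  rw [rd_conj hp]
  exact h.conj _ hx

/-- The level conditions away from `7`. -/
def Base (x : Q4 ℤ) : Prop := nf x = 1 ∧ In 5 l5 x ∧ In 11 lA x ∧ In 17 lB x

instance (x : Q4 ℤ) : Decidable (Base x) := by unfold Base; infer_instance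

theorem base_one : Base 1 := by decide +kernel

theorem Base.mul {x y : Q4 ℤ} (hx : Base x) (hy : Base y) : Base (x * y) :=
  ⟨by rw [nf_mul, hx.1, hy.1]; rfl, hx.2.1.mul (by norm_num) grp5 hy.2.1,
    hx.2.2.1.mul (by norm_num) grpA hy.2.2.1, hx.2.2.2.mul (by norm_num) grpB hy.2.2.2⟩

theorem Base.conj {x : Q4 ℤ} (hx : Base x) : Base (conj x) :=
  ⟨by rw [nf_conj, hx.1], hx.2.1.conj (by norm_num) grp5,
    hx.2.2.1.conj (by norm_num) grpA, hx.2.2.2.conj (by norm_num) grpB⟩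

/-- A multiplicative condition. -/
structure IsLvl (T : Q4 ℤ → Prop) : Prop where
  one : T 1
  mul : ∀ x y, T x → T y → T (x * y)
  conj : ∀ x, T x → T (conj x)

theorem lvl_true : IsLvl fun _ => True := ⟨trivial, fun _ _ _ _ => trivial, fun _ _ => trivial⟩

theorem rd_one (p : ℕ) (hp : 1 < p) : rd p 1 = ⟨1, 0, 0, 0⟩ := by
  have h1 : ((1 : ℤ) % p) = 1 := Int.emod_eq_of_lt (by norm_num) (by exact_mod_cast hp)
  unfold rd
  rw [one_def]
  simp [h1]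

theorem lvl_in {p : ℕ} {l : List (Q4 ℕ)} (hp : 1 < p) (h : IsGrp p l) : IsLvl (In p l) :=
  ⟨by unfold In; rw [rd_one p hp]; exact h.one,
    fun _ _ hx hy => hx.mul (by omega) h hy, fun _ hx => hx.conj (by omega) h⟩

/-- The group of norm one elements with the given level conditions. -/
noncomputable def grp (T : Q4 ℤ → Prop) (hT : IsLvl T) : Subgroup SL(2, ℝ) where
  carrier := {g | ∃ x : Q4 ℤ, g.1 = om x ∧ Base x ∧ T x}
  one_mem' := ⟨1, by rw [om_one]; rfl, base_one, hT.one⟩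
  mul_mem' := by
    rintro g g' ⟨x, hx, hx1, hx2⟩ ⟨y, hy, hy1, hy2⟩
    exact ⟨x * y, by rw [Matrix.SpecialLinearGroup.coe_mul, hx, hy, om_mul], hx1.mul hy1,
      hT.mul _ _ hx2 hy2⟩
  inv_mem' := by
    rintro g ⟨x, hx, hx1, hx2⟩
    exact ⟨conj x, by rw [Matrix.SpecialLinearGroup.coe_inv, hx, adj_om], hx1.conj, hT.conj _ hx2⟩

theorem mem_grp {T : Q4 ℤ → Prop} {hT : IsLvl T} {g : SL(2, ℝ)} :
    g ∈ grp T hT ↔ ∃ x : Q4 ℤ, g.1 = om x ∧ Base x ∧ T x := Iff.rfl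

/-- The element of `SL(2, ℝ)`. -/
noncomputable def sl (x : Q4 ℤ) (h : nf x = 1) : SL(2, ℝ) :=
  ⟨om x, by rw [det_om, h]; simp⟩

theorem sl_coe (x : Q4 ℤ) (h : nf x = 1) : (sl x h).1 = om x := rfl

theorem sl_mem {T : Q4 ℤ → Prop} {hT : IsLvl T} {x : Q4 ℤ} (h : nf x = 1) :
    sl x h ∈ grp T hT ↔ Base x ∧ T x := by
  constructor
  · rintro ⟨y, hy, h1, h2⟩
    have : x = y := om_injective hy
    subst this
    exact ⟨h1, h2⟩
  · rintro ⟨h1, h2⟩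
    exact ⟨x, rfl, h1, h2⟩

/-- The largest group. -/
noncomputable def Gam0 : Subgroup SL(2, ℝ) := grp _ lvl_true
/-- The first intermediate group. -/
noncomputable def GamP : Subgroup SL(2, ℝ) := grp _ (lvl_in (by norm_num) grpP)
/-- The second intermediate group. -/
noncomputable def GamL : Subgroup SL(2, ℝ) := grp _ (lvl_in (by norm_num) grpL)
/-- The group of the counterexample. -/
noncomputable def GamH : Subgroup SL(2, ℝ) := grp _ (lvl_in (by norm_num) grpH)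

theorem grp_mono {T T' : Q4 ℤ → Prop} {hT : IsLvl T} {hT' : IsLvl T'} (h : ∀ x, T x → T' x) :
    grp T hT ≤ grp T' hT' := by
  rintro g ⟨x, h1, h2, h3⟩
  exact ⟨x, h1, h2, h x h3⟩

theorem lH_sub_lP : ∀ x ∈ lH, x ∈ lP := by decide +kernel
theorem lH_sub_lL : ∀ x ∈ lH, x ∈ lL := by decide +kernel

theorem GamH_le_GamP : GamH ≤ GamP := grp_mono fun _ h => lH_sub_lP _ h
theorem GamH_le_GamL : GamH ≤ GamL := grp_mono fun _ h => lH_sub_lL _ h
theorem GamP_le_Gam0 : GamP ≤ Gam0 := grp_mono fun _ _ => trivial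
theorem GamL_le_Gam0 : GamL ≤ Gam0 := grp_mono fun _ _ => trivial
theorem GamH_le_Gam0 : GamH ≤ Gam0 := GamH_le_GamP.trans GamP_le_Gam0

/-! ### Anisotropy -/

theorem aniso13 : ∀ a b : ZMod 13, a ^ 2 + a * b - b ^ 2 = 0 → a = 0 ∧ b = 0 := by decide

theorem dvd13 {a b : ℤ} (h : (13 : ℤ) ∣ a ^ 2 + a * b - b ^ 2) : (13 : ℤ) ∣ a ∧ (13 : ℤ) ∣ b := by
  have h1 : ((a ^ 2 + a * b - b ^ 2 : ℤ) : ZMod 13) = 0 :=
    (ZMod.intCast_zmod_eq_zero_iff_dvd _ 13).mpr h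
  push_cast at h1
  obtain ⟨h2, h3⟩ := aniso13 _ _ h1
  exact ⟨(ZMod.intCast_zmod_eq_zero_iff_dvd _ 13).mp h2,
    (ZMod.intCast_zmod_eq_zero_iff_dvd _ 13).mp h3⟩

theorem nf_dvd {x : Q4 ℤ} (h : (169 : ℤ) ∣ nf x) :
    (13 : ℤ) ∣ x.a ∧ (13 : ℤ) ∣ x.b ∧ (13 : ℤ) ∣ x.c ∧ (13 : ℤ) ∣ x.d := by
  obtain ⟨k, hk⟩ := h
  unfold Q4.nf at hk
  obtain ⟨⟨a, ha⟩, ⟨b, hb⟩⟩ := dvd13 (a := x.a) (b := x.b)
    ⟨13 * k + (x.c ^ 2 + x.c * x.d - x.d ^ 2), by linarith⟩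
  rw [ha, hb] at hk
  obtain ⟨hc, hd⟩ := dvd13 (a := x.c) (b := x.d) ⟨a ^ 2 + a * b - b ^ 2 - k, by nlinarith⟩
  exact ⟨⟨a, ha⟩, ⟨b, hb⟩, hc, hd⟩

theorem aniso_aux' : ∀ (n : ℕ) (x : Q4 ℤ),
    x.a.natAbs + x.b.natAbs + x.c.natAbs + x.d.natAbs ≤ n → nf x = 0 → x = ⟨0, 0, 0, 0⟩ := by
  intro n
  induction n with
  | zero =>
    intro x hn _
    ext <;> simp <;> omega
  | succ n ih =>
    intro x hn h
    obtain ⟨⟨a, ha⟩, ⟨b, hb⟩, ⟨c, hc⟩, ⟨d, hd⟩⟩ := nf_dvd (x := x) (by rw [h]; exact dvd_zero _)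
    have h' : nf (⟨a, b, c, d⟩ : Q4 ℤ) = 0 := by
      unfold Q4.nf at h ⊢
      rw [ha, hb, hc, hd] at h
      simp only
      nlinarith
    rcases Nat.eq_zero_or_pos (a.natAbs + b.natAbs + c.natAbs + d.natAbs) with h0 | h0
    · ext <;> simp <;> omega
    · have := ih ⟨a, b, c, d⟩ (by simp only; omega) h'
      simp only [Q4.mk.injEq] at this
      obtain ⟨h1, h2, h3, h4⟩ := this
      omega

theorem aniso' {x : Q4 ℤ} (h : nf x = 0) : x = ⟨0, 0, 0, 0⟩ := aniso_aux' _ x le_rfl h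

/-! ### No torsion, displacement -/

theorem tr0 : ∀ a b c d : ZMod 5, a ^ 2 + a * b - b ^ 2 - 13 * (c ^ 2 + c * d - d ^ 2) = 1 →
    2 * a + b ≠ 0 := by decide +kernel

theorem tr1 : ∀ a b : ZMod 13, a ^ 2 + a * b - b ^ 2 = 1 → 2 * a + b ≠ 1 ∧ 2 * a + b ≠ -1 := by
  decide +kernel

theorem mod5_ne : ¬ In 5 l5 ⟨-1, 0, 0, 0⟩ := by decide +kernel

theorem trace_ge {x : Q4 ℤ} (h : nf x = 1) (h1 : x ≠ 1) (h5 : In 5 l5 x) :
    3 ≤ |2 * x.a + x.b| := by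
  have e0 : 2 * x.a + x.b ≠ 0 := by
    intro h0
    have h2 : ((nf x : ℤ) : ZMod 5) = 1 := by rw [h]; simp
    unfold Q4.nf at h2
    push_cast at h2
    apply tr0 _ _ _ _ h2
    exact_mod_cast congrArg (Int.cast : ℤ → ZMod 5) h0
  have h13 : (x.a : ZMod 13) ^ 2 + x.a * x.b - x.b ^ 2 = 1 := by
    have h2 : ((nf x : ℤ) : ZMod 13) = 1 := by rw [h]; simp
    unfold Q4.nf at h2
    push_cast at h2
    have h3 : (13 : ZMod 13) = 0 := by decide
    rw [h3, zero_mul, sub_zero] at h2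
    exact h2
  have e1 : 2 * x.a + x.b ≠ 1 := by
    intro h0
    apply (tr1 _ _ h13).1
    exact_mod_cast congrArg (Int.cast : ℤ → ZMod 13) h0
  have e2 : 2 * x.a + x.b ≠ -1 := by
    intro h0
    apply (tr1 _ _ h13).2
    have := congrArg (Int.cast : ℤ → ZMod 13) h0
    push_cast at this
    exact this
  have e3 : 2 * x.a + x.b ≠ 2 := by
    intro h0
    have h2 : nf (⟨x.a - 1, x.b, x.c, x.d⟩ : Q4 ℤ) = 0 := by
      unfold Q4.nf at h ⊢
      simp only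
      nlinarith
    have h3 := aniso' h2
    simp only [Q4.mk.injEq] at h3
    apply h1
    rw [one_def]
    ext <;> simp <;> omega
  have e4 : 2 * x.a + x.b ≠ -2 := by
    intro h0
    have h2 : nf (⟨x.a + 1, x.b, x.c, x.d⟩ : Q4 ℤ) = 0 := by
      unfold Q4.nf at h ⊢
      simp only
      nlinarith
    have h3 := aniso' h2
    simp only [Q4.mk.injEq] at h3
    have h4 : x = ⟨-1, 0, 0, 0⟩ := by
      ext <;> simp <;> omega
    rw [h4] at h5
    exact mod5_ne h5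
  rw [le_abs]
  omega

theorem movesFar_grp {T : Q4 ℤ → Prop} (hT : IsLvl T) : MovesFar (grp T hT) 1 := by
  rintro g ⟨x, hx, hb, -⟩ hg1 z
  have hx1 : x ≠ 1 := by
    rintro rfl
    apply hg1
    apply Subtype.ext
    rw [hx, om_one]
    rfl
  have h1 := trace_ge hb.1 hx1 hb.2.1
  have h2 := cosh_dist_ge g z
  rw [hx, trace_om] at h2
  have h3 : (9 : ℝ) ≤ ((2 * x.a + x.b : ℤ) : ℝ) ^ 2 := by
    have h4 : (9 : ℤ) ≤ (2 * x.a + x.b) ^ 2 := by
      rw [← sq_abs]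
      nlinarith
    exact_mod_cast h4
  by_contra hcon
  push Not at hcon
  have h5 : Real.cosh (dist z (g • z)) < Real.cosh 1 := by
    apply Real.cosh_lt_cosh.mpr
    rw [abs_of_nonneg dist_nonneg, abs_one]
    exact hcon
  have h6 : Real.cosh 1 ≤ 2 := by
    rw [Real.cosh_eq]
    have := Real.exp_one_lt_d9
    have h7 : Real.exp (-1) ≤ 1 := Real.exp_le_one_iff.mpr (by norm_num)
    linarith
  linarith

end Pool.Agent.E8helper58.HM
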