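import Pool.Agent.E8helper58.HM.Data

/-! Reduction of quaternions and finite checks. -/

set_option autoImplicit false

namespace Pool.Agent.E8helper58.HM

open Q4

/-- Product of reduced quadruples. -/
def nmul (p : ℕ) (x y : Q4 ℕ) : Q4 ℕ :=
  ⟨(x.a * y.a + x.b * y.b + 13 * (x.c * y.c + x.c * y.d + (p - x.d) * y.d)) % p,
   (x.a * y.b + x.b * y.a + x.b * y.b + 13 * (x.d * y.c + (p - x.c) * y.d)) % p,
   (x.a * y.c + x.b * y.d + x.c * y.a + x.c * y.b + (p - x.d) * y.b) % p,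
   (x.a * y.d + x.b * y.c + x.b * y.d + x.d * y.a + (p - x.c) * y.b) % p⟩

/-- Conjugate of a reduced quadruple. -/
def nconj (p : ℕ) (x : Q4 ℕ) : Q4 ℕ :=
  ⟨(x.a + x.b) % p, (p - x.b) % p, (p - x.c) % p, (p - x.d) % p⟩

/-- Norm of a reduced quadruple. -/
def nnf (p : ℕ) (x : Q4 ℕ) : ℕ :=
  (x.a * x.a + x.a * x.b + (p - x.b) * x.b +
    13 * ((p - x.c) * x.c + (p - x.c) * x.d + x.d * x.d)) % p

/-- Scalar multiple. -/
def nsm (p n : ℕ) (x : Q4 ℕ) : Q4 ℕ :=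
  ⟨n * x.a % p, n * x.b % p, n * x.c % p, n * x.d % p⟩

/-- Code of a reduced quadruple. -/
def code (p : ℕ) (x : Q4 ℕ) : ℕ := x.a + p * (x.b + p * (x.c + p * x.d))

/-- Reduced quadruples. -/
def Red (p : ℕ) (x : Q4 ℕ) : Prop := x.a < p ∧ x.b < p ∧ x.c < p ∧ x.d < p

instance (p : ℕ) (x : Q4 ℕ) : Decidable (Red p x) := by unfold Red; infer_instance

/-- Reduction. -/
def rd (p : ℕ) (x : Q4 ℤ) : Q4 ℕ :=
  ⟨(x.a % p).toNat, (x.b % p).toNat, (x.c % p).toNat, (x.d % p).toNat⟩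

theorem toNat_lt {p : ℕ} (hp : 0 < p) (t : ℤ) : (t % p).toNat < p := by
  have h1 := Int.emod_lt_of_pos t (by exact_mod_cast hp : (0 : ℤ) < p)
  have h2 := Int.emod_nonneg t (by exact_mod_cast hp.ne' : (p : ℤ) ≠ 0)
  omega

theorem red_rd {p : ℕ} (hp : 0 < p) (x : Q4 ℤ) : Red p (rd p x) :=
  ⟨toNat_lt hp _, toNat_lt hp _, toNat_lt hp _, toNat_lt hp _⟩

theorem cast_rd {p : ℕ} (hp : 0 < p) (t : ℤ) : (((t % p).toNat : ℕ) : ZMod p) = (t : ZMod p) := by
  have h2 := Int.emod_nonneg t (by exact_mod_cast hp.ne' : (p : ℤ) ≠ 0)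
  have h3 : (((t % p).toNat : ℕ) : ℤ) = t % p := Int.toNat_of_nonneg h2
  have h4 : (((t % p).toNat : ℕ) : ZMod p) = (((t % p).toNat : ℤ) : ZMod p) := by push_cast; rfl
  rw [h4, h3, ZMod.intCast_mod]

theorem eq_of_cast {p : ℕ} {m n : ℕ} (hm : m < p) (hn : n < p) (h : (m : ZMod p) = (n : ZMod p)) :
    m = n := by
  rw [ZMod.natCast_eq_natCast_iff'] at h
  rwa [Nat.mod_eq_of_lt hm, Nat.mod_eq_of_lt hn] at h

theorem toNat_eq {p : ℕ} (hp : 0 < p) {t : ℤ} {m : ℕ} (h : (t : ZMod p) = (m : ZMod p)) :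
    (t % p).toNat = m % p := by
  apply eq_of_cast (toNat_lt hp t) (Nat.mod_lt _ hp)
  rw [cast_rd hp, h, ZMod.natCast_mod]

theorem rd_mul {p : ℕ} (hp : 0 < p) (x y : Q4 ℤ) : rd p (x * y) = nmul p (rd p x) (rd p y) := by
  have hx := red_rd hp x
  have hc : (rd p x).c ≤ p := hx.2.2.1.le
  have hd : (rd p x).d ≤ p := hx.2.2.2.le
  have e1 : ((rd p x).a : ZMod p) = x.a := cast_rd hp _
  have e2 : ((rd p x).b : ZMod p) = x.b := cast_rd hp _
  have e3 : ((rd p x).c : ZMod p) = x.c := cast_rd hp _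
  have e4 : ((rd p x).d : ZMod p) = x.d := cast_rd hp _
  have f1 : ((rd p y).a : ZMod p) = y.a := cast_rd hp _
  have f2 : ((rd p y).b : ZMod p) = y.b := cast_rd hp _
  have f3 : ((rd p y).c : ZMod p) = y.c := cast_rd hp _
  have f4 : ((rd p y).d : ZMod p) = y.d := cast_rd hp _
  unfold nmul
  ext
  · refine toNat_eq hp ?_
    rw [mul_def]
    push_cast [Nat.cast_sub hd]
    rw [e1, e2, e3, e4, f1, f2, f3, f4, ZMod.natCast_self]
    ring
  · refine toNat_eq hp ?_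
    rw [mul_def]
    push_cast [Nat.cast_sub hc]
    rw [e1, e2, e3, e4, f1, f2, f3, f4, ZMod.natCast_self]
    ring
  · refine toNat_eq hp ?_
    rw [mul_def]
    push_cast [Nat.cast_sub hd]
    rw [e1, e2, e3, e4, f1, f2, f3, f4, ZMod.natCast_self]
    ring
  · refine toNat_eq hp ?_
    rw [mul_def]
    push_cast [Nat.cast_sub hc]
    rw [e1, e2, e3, e4, f1, f2, f3, f4, ZMod.natCast_self]
    ring

theorem rd_conj {p : ℕ} (hp : 0 < p) (x : Q4 ℤ) : rd p (conj x) = nconj p (rd p x) := by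
  have hx := red_rd hp x
  have hb : (rd p x).b ≤ p := hx.2.1.le
  have hc : (rd p x).c ≤ p := hx.2.2.1.le
  have hd : (rd p x).d ≤ p := hx.2.2.2.le
  have e1 : ((rd p x).a : ZMod p) = x.a := cast_rd hp _
  have e2 : ((rd p x).b : ZMod p) = x.b := cast_rd hp _
  have e3 : ((rd p x).c : ZMod p) = x.c := cast_rd hp _
  have e4 : ((rd p x).d : ZMod p) = x.d := cast_rd hp _
  unfold nconj conj
  ext
  · refine toNat_eq hp ?_
    push_cast
    rw [e1, e2]
  · refine toNat_eq hp ?_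
    push_cast [Nat.cast_sub hb]
    rw [e2, ZMod.natCast_self]
    ring
  · refine toNat_eq hp ?_
    push_cast [Nat.cast_sub hc]
    rw [e3, ZMod.natCast_self]
    ring
  · refine toNat_eq hp ?_
    push_cast [Nat.cast_sub hd]
    rw [e4, ZMod.natCast_self]
    ring

theorem nnf_rd {p : ℕ} (hp : 0 < p) (x : Q4 ℤ) : nnf p (rd p x) = (nf x % p).toNat := by
  have hx := red_rd hp x
  have hb : (rd p x).b ≤ p := hx.2.1.le
  have hc : (rd p x).c ≤ p := hx.2.2.1.le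
  have e1 : ((rd p x).a : ZMod p) = x.a := cast_rd hp _
  have e2 : ((rd p x).b : ZMod p) = x.b := cast_rd hp _
  have e3 : ((rd p x).c : ZMod p) = x.c := cast_rd hp _
  have e4 : ((rd p x).d : ZMod p) = x.d := cast_rd hp _
  unfold nnf nf
  refine (toNat_eq hp ?_).symm
  push_cast [Nat.cast_sub hb, Nat.cast_sub hc]
  rw [e1, e2, e3, e4, ZMod.natCast_self]
  ring

theorem rd_smul {p : ℕ} (hp : 0 < p) (n : ℕ) (x : Q4 ℤ) :
    rd p (Q4.smul (n : ℤ) x) = nsm p n (rd p x) := by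
  have e1 : ((rd p x).a : ZMod p) = x.a := cast_rd hp _
  have e2 : ((rd p x).b : ZMod p) = x.b := cast_rd hp _
  have e3 : ((rd p x).c : ZMod p) = x.c := cast_rd hp _
  have e4 : ((rd p x).d : ZMod p) = x.d := cast_rd hp _
  unfold nsm Q4.smul
  ext
  · refine toNat_eq hp ?_
    push_cast
    rw [e1]
  · refine toNat_eq hp ?_
    push_cast
    rw [e2]
  · refine toNat_eq hp ?_
    push_cast
    rw [e3]
  · refine toNat_eq hp ?_
    push_cast
    rw [e4]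

/-- The bit mask of a list of quadruples. -/
def mask (p : ℕ) (l : List (Q4 ℕ)) : ℕ := l.foldr (fun x m => (1 <<< code p x) ||| m) 0

theorem testBit_mask (p : ℕ) (l : List (Q4 ℕ)) (n : ℕ) :
    (mask p l).testBit n = true ↔ ∃ x ∈ l, code p x = n := by
  induction l with
  | nil => simp [mask]
  | cons y l ih =>
    have h1 : mask p (y :: l) = (1 <<< code p y) ||| mask p l := rfl
    rw [h1, Nat.testBit_or, Bool.or_eq_true, ih, Nat.one_shiftLeft, Nat.testBit_two_pow]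
    simp

theorem code_inj {p : ℕ} {x y : Q4 ℕ} (hx : Red p x) (hy : Red p y)
    (h : code p x = code p y) : x = y := by
  unfold code at h
  obtain ⟨h1, h2, h3, h4⟩ := hx
  obtain ⟨g1, g2, g3, g4⟩ := hy
  have key : ∀ {u v s t : ℕ}, u < p → v < p → u + p * s = v + p * t → u = v ∧ s = t := by
    intro u v s t hu hv huv
    have e1 : (u + p * s) % p = u := by rw [Nat.add_mul_mod_self_left, Nat.mod_eq_of_lt hu]
    have e2 : (v + p * t) % p = v := by rw [Nat.add_mul_mod_self_left, Nat.mod_eq_of_lt hv]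
    have e3 : u = v := by rw [← e1, ← e2, huv]
    refine ⟨e3, ?_⟩
    subst e3
    have hp : 0 < p := lt_of_le_of_lt (Nat.zero_le _) hu
    exact Nat.eq_of_mul_eq_mul_left hp (by omega)
  obtain ⟨e1, h⟩ := key h1 g1 h
  obtain ⟨e2, h⟩ := key h2 g2 h
  obtain ⟨e3, e4⟩ := key h3 g3 h
  ext <;> assumption

theorem mem_of_mask {p : ℕ} {l : List (Q4 ℕ)} (hl : ∀ x ∈ l, Red p x) {y : Q4 ℕ} (hy : Red p y)
    (h : (mask p l).testBit (code p y) = true) : y ∈ l := by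
  obtain ⟨x, hx, he⟩ := (testBit_mask p l _).mp h
  rwa [← code_inj (hl x hx) hy he]

theorem mask_of_mem {p : ℕ} {l : List (Q4 ℕ)} {y : Q4 ℕ} (h : y ∈ l) :
    (mask p l).testBit (code p y) = true := (testBit_mask p l _).mpr ⟨y, h, rfl⟩

theorem red_nmul {p : ℕ} (hp : 0 < p) (x y : Q4 ℕ) : Red p (nmul p x y) :=
  ⟨Nat.mod_lt _ hp, Nat.mod_lt _ hp, Nat.mod_lt _ hp, Nat.mod_lt _ hp⟩

theorem red_nconj {p : ℕ} (hp : 0 < p) (x : Q4 ℕ) : Red p (nconj p x) :=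
  ⟨Nat.mod_lt _ hp, Nat.mod_lt _ hp, Nat.mod_lt _ hp, Nat.mod_lt _ hp⟩

theorem red_nsm {p : ℕ} (hp : 0 < p) (n : ℕ) (x : Q4 ℕ) : Red p (nsm p n x) :=
  ⟨Nat.mod_lt _ hp, Nat.mod_lt _ hp, Nat.mod_lt _ hp, Nat.mod_lt _ hp⟩

/-- The check that `l` is closed under products and conjugates and contains `1`. -/
def chkGrp (p : ℕ) (l : List (Q4 ℕ)) (m : ℕ) : Bool :=
  (l.all fun x => Nat.blt x.a p && Nat.blt x.b p && Nat.blt x.c p && Nat.blt x.d p) &&
  (l.all fun x => l.all fun y => m.testBit (code p (nmul p x y))) &&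
  (l.all fun x => m.testBit (code p (nconj p x))) && m.testBit 1

/-- `l` is closed under products and conjugates and contains `1`. -/
structure IsGrp (p : ℕ) (l : List (Q4 ℕ)) : Prop where
  red : ∀ x ∈ l, Red p x
  mul : ∀ x ∈ l, ∀ y ∈ l, nmul p x y ∈ l
  conj : ∀ x ∈ l, nconj p x ∈ l
  one : (⟨1, 0, 0, 0⟩ : Q4 ℕ) ∈ l

theorem isGrp_of_chk {p : ℕ} (hp : 1 < p) {l : List (Q4 ℕ)} (h : chkGrp p l (mask p l) = true) :
    IsGrp p l := by
  unfold chkGrp at h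
  simp only [Bool.and_eq_true, List.all_eq_true, Nat.blt_eq] at h
  obtain ⟨⟨⟨h1, h2⟩, h3⟩, h4⟩ := h
  have hred : ∀ x ∈ l, Red p x := fun x hx =>
    ⟨(h1 x hx).1.1.1, (h1 x hx).1.1.2, (h1 x hx).1.2, (h1 x hx).2⟩
  have hp0 : 0 < p := by omega
  refine ⟨hred, fun x hx y hy => mem_of_mask hred (red_nmul hp0 x y) (h2 x hx y hy),
    fun x hx => mem_of_mask hred (red_nconj hp0 x) (h3 x hx),
    mem_of_mask hred ⟨hp, hp0, hp0, hp0⟩ ?_⟩
  have : code p ⟨1, 0, 0, 0⟩ = 1 := by simp [code]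
  rw [this]
  exact h4

theorem grp5 : IsGrp 5 l5 := isGrp_of_chk (by norm_num) (by decide +kernel)
theorem grpA : IsGrp 11 lA := isGrp_of_chk (by norm_num) (by decide +kernel)
theorem grpB : IsGrp 17 lB := isGrp_of_chk (by norm_num) (by decide +kernel)
theorem grpP : IsGrp 7 lP := isGrp_of_chk (by norm_num) (by decide +kernel)
theorem grpL : IsGrp 7 lL := isGrp_of_chk (by norm_num) (by decide +kernel)
theorem grpH : IsGrp 7 lH := isGrp_of_chk (by norm_num) (by decide +kernel)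

end Pool.Agent.E8helper58.HM
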