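import Pool.Agent.E8helper58.HM.Rig

/-! The level structure at `17` is determined by its conjugates. -/

set_option autoImplicit false

namespace Pool.Agent.E8helper58.HM

open Q4

theorem rig17_1 : rigChk 17 1 (mask 17 (sml 17 1 lB)) (mask 17 lB) (rd 17 g1) (rd 17 g2)
    (List.range 17) = true := by decide +kernel

theorem rig17_5 : rigChk 17 5 (mask 17 (sml 17 5 lB)) (mask 17 []) (rd 17 g1) (rd 17 g2)
    (List.range 17) = true := by decide +kernel

end Pool.Agent.E8helper58.HM
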