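import Pool.Agent.E8helper58.HM.Cosets
import Pool.Agent.E8helper58.HM.Rig17

/-! The normaliser: elements of `SL(2, ℝ)` normalising the group up to sign. -/

set_option autoImplicit false

open scoped MatrixGroups UpperHalfPlane
open UpperHalfPlane Pool.Agent.H85R3.HS

namespace Pool.Agent.E8helper58.HM

open Q4

instance {R : Type} [CommRing R] : Add (Q4 R) := ⟨fun x y => ⟨x.a + y.a, x.b + y.b, x.c + y.c, x.d + y.d⟩⟩

theorem add_def {R : Type} [CommRing R] (x y : Q4 R) :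
    x + y = ⟨x.a + y.a, x.b + y.b, x.c + y.c, x.d + y.d⟩ := rfl

theorem om_add (x y : Q4 ℤ) : om (x + y) = om x + om y := by
  rw [add_def]
  unfold om
  ext i j
  fin_cases i <;> fin_cases j <;> simp <;> ring

/-- The element `i = 2 φ - 1`. -/
def qi : Q4 ℤ := ⟨-1, 2, 0, 0⟩
/-- The element `j`. -/
def qj : Q4 ℤ := ⟨0, 0, 1, 0⟩
/-- The element `k = i j`. -/
def qk : Q4 ℤ := ⟨0, 0, -1, 2⟩
/-- The element `φ`. -/
def qf : Q4 ℤ := ⟨0, 1, 0, 0⟩
/-- The element `φ j`. -/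
def qfj : Q4 ℤ := ⟨0, 0, 0, 1⟩

theorem om_qi : om qi = !![√5, 0; 0, -√5] := by
  unfold om qi ph pc
  ext i j
  fin_cases i <;> fin_cases j <;> simp <;> ring

theorem om_qj : om qj = !![0, 1; 13, 0] := by
  unfold om qj ph pc
  ext i j
  fin_cases i <;> fin_cases j <;> simp

theorem om_qk : om qk = !![0, √5; -(13 * √5), 0] := by
  unfold om qk ph pc
  ext i j
  fin_cases i <;> fin_cases j <;> simp <;> ring

/-- The averaging identity. -/
theorem identity (X : Matrix (Fin 2) (Fin 2) ℝ) :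
    (65 : ℝ) • X + (13 : ℝ) • (om qi * X * om qi) + (5 : ℝ) • (om qj * X * om qj)
      - om qk * X * om qk = (130 * X.trace) • (1 : Matrix (Fin 2) (Fin 2) ℝ) := by
  have h5 := sqrt5_sq
  rw [om_qi, om_qj, om_qk, Matrix.eta_fin_two X, Matrix.trace_fin_two_of]
  simp only [Matrix.mul_fin_two, Matrix.one_fin_two]
  ext i j
  fin_cases i <;> fin_cases j
  · simp
    linear_combination (13 * X 0 0 + 13 * X 1 1) * h5
  · simp
    linear_combination (-13 * X 0 1 - X 1 0) * h5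
  · simp
    linear_combination (-13 * X 1 0 - 169 * X 0 1) * h5
  · simp
    linear_combination (13 * X 1 1 + 13 * X 0 0) * h5

theorem om_neg (x : Q4 ℤ) : -om x = om (Q4.smul (-1) x) := by
  rw [om_smul]; simp

/-- The conjugation hypothesis. -/
def Nrm (g : SL(2, ℝ)) : Prop :=
  ∀ γ ∈ GamH, ∃ γ' ∈ GamH, g.1 * γ.1 = γ'.1 * g.1 ∨ g.1 * γ.1 = -γ'.1 * g.1

theorem Nrm.conj_gen {g : SL(2, ℝ)} (h : Nrm g) {x : Q4 ℤ} (hx : Base x) (hx7 : In 7 lH x) :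
    ∃ y : Q4 ℤ, g.1 * om x = om y * g.1 ∧ ∃ y', Base y' ∧ In 7 lH y' ∧
      (y = y' ∨ y = Q4.smul (-1) y') := by
  obtain ⟨γ', ⟨y', hy', hb, h7⟩, h1⟩ := h (sl x hx.1) ((sl_mem hx.1).mpr ⟨hx, hx7⟩)
  rw [sl_coe, hy'] at h1
  rcases h1 with h1 | h1
  · exact ⟨y', h1, y', hb, h7, Or.inl rfl⟩
  · exact ⟨Q4.smul (-1) y', by rw [h1, om_neg], y', hb, h7, Or.inr rfl⟩

theorem base_g1 : Base g1 ∧ In 7 lH g1 := by decide +kernel
theorem base_g2 : Base g2 ∧ In 7 lH g2 := by decide +kernel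
theorem base_g3 : Base g3 ∧ In 7 lH g3 := by decide +kernel
theorem base_g4 : Base g4 ∧ In 7 lH g4 := by decide +kernel

theorem comb_f : qf = Q4.smul (-7857766) 1 + (Q4.smul (-25335) g1 + (Q4.smul 43414 g2 +
    (Q4.smul 6885 g3 + Q4.smul (-14095) g4))) := by decide +kernel
theorem comb_j : qj = Q4.smul (-5658478) 1 + (Q4.smul (-18244) g1 + (Q4.smul 31263 g2 +
    (Q4.smul 4958 g3 + Q4.smul (-10150) g4))) := by decide +kernel
theorem comb_fj : qfj = Q4.smul 24638092 1 + (Q4.smul 79438 g1 + (Q4.smul (-136125) g2 +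
    (Q4.smul (-21588) g3 + Q4.smul 44195 g4))) := by decide +kernel

/-- Elements whose conjugate is in the order. -/
def Cj (g : SL(2, ℝ)) (x : Q4 ℤ) : Prop := ∃ y : Q4 ℤ, g.1 * om x = om y * g.1

theorem Cj.add {g : SL(2, ℝ)} {x y : Q4 ℤ} (hx : Cj g x) (hy : Cj g y) : Cj g (x + y) := by
  obtain ⟨x', hx⟩ := hx
  obtain ⟨y', hy⟩ := hy
  exact ⟨x' + y', by rw [om_add, om_add, Matrix.mul_add, Matrix.add_mul, hx, hy]⟩

theorem Cj.smul {g : SL(2, ℝ)} {x : Q4 ℤ} (hx : Cj g x) (t : ℤ) : Cj g (Q4.smul t x) := by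
  obtain ⟨x', hx⟩ := hx
  exact ⟨Q4.smul t x', by rw [om_smul, om_smul, Matrix.mul_smul, Matrix.smul_mul, hx]⟩

theorem Cj.one (g : SL(2, ℝ)) : Cj g 1 := ⟨1, by rw [om_one]; simp⟩

theorem Nrm.all {g : SL(2, ℝ)} (h : Nrm g) (x : Q4 ℤ) : Cj g x := by
  have h1 : Cj g g1 := let ⟨y, hy, _⟩ := h.conj_gen base_g1.1 base_g1.2; ⟨y, hy⟩
  have h2 : Cj g g2 := let ⟨y, hy, _⟩ := h.conj_gen base_g2.1 base_g2.2; ⟨y, hy⟩
  have h3 : Cj g g3 := let ⟨y, hy, _⟩ := h.conj_gen base_g3.1 base_g3.2; ⟨y, hy⟩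
  have h4 : Cj g g4 := let ⟨y, hy, _⟩ := h.conj_gen base_g4.1 base_g4.2; ⟨y, hy⟩
  have hf : Cj g qf := by
    rw [comb_f]
    exact ((Cj.one g).smul _).add ((h1.smul _).add ((h2.smul _).add ((h3.smul _).add (h4.smul _))))
  have hj : Cj g qj := by
    rw [comb_j]
    exact ((Cj.one g).smul _).add ((h1.smul _).add ((h2.smul _).add ((h3.smul _).add (h4.smul _))))
  have hfj : Cj g qfj := by
    rw [comb_fj]
    exact ((Cj.one g).smul _).add ((h1.smul _).add ((h2.smul _).add ((h3.smul _).add (h4.smul _))))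
  have hx : x = Q4.smul x.a 1 + (Q4.smul x.b qf + (Q4.smul x.c qj + Q4.smul x.d qfj)) := by
    simp only [add_def, Q4.smul, one_def, qf, qj, qfj]
    ext <;> simp
  rw [hx]
  exact ((Cj.one g).smul _).add ((hf.smul _).add ((hj.smul _).add (hfj.smul _)))

/-- Step 3: multiples of `g` lie in the order. -/
theorem Nrm.mult {g : SL(2, ℝ)} (h : Nrm g) (u : Q4 ℤ) :
    ∃ w : Q4 ℤ, (130 * (g⁻¹.1 * om u).trace) • g.1 = om w := by
  obtain ⟨yi, hi⟩ := h.all qi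
  obtain ⟨yj, hj⟩ := h.all qj
  obtain ⟨yk, hk⟩ := h.all qk
  have hg : g.1 * g⁻¹.1 = 1 := by
    rw [← Matrix.SpecialLinearGroup.coe_mul, mul_inv_cancel]; rfl
  set X := g⁻¹.1 * om u with hX
  have hgX : g.1 * X = om u := by rw [hX, ← Matrix.mul_assoc, hg, Matrix.one_mul]
  refine ⟨Q4.smul 65 u + (Q4.smul 13 (yi * u * qi) + (Q4.smul 5 (yj * u * qj) +
    Q4.smul (-1) (yk * u * qk))), ?_⟩
  have h1 := congrArg (fun M => g.1 * M) (identity X)
  simp only [Matrix.mul_add, Matrix.mul_sub, Matrix.mul_smul, Matrix.mul_one] at h1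
  rw [← h1, hgX]
  have e1 : g.1 * (om qi * X * om qi) = om (yi * u * qi) := by
    rw [Matrix.mul_assoc, ← Matrix.mul_assoc, hi, Matrix.mul_assoc (om yi), ← Matrix.mul_assoc g.1,
      hgX, ← om_mul, ← om_mul, Matrix.mul_assoc]
  have e2 : g.1 * (om qj * X * om qj) = om (yj * u * qj) := by
    rw [Matrix.mul_assoc, ← Matrix.mul_assoc, hj, Matrix.mul_assoc (om yj), ← Matrix.mul_assoc g.1,
      hgX, ← om_mul, ← om_mul, Matrix.mul_assoc]
  have e3 : g.1 * (om qk * X * om qk) = om (yk * u * qk) := by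
    rw [Matrix.mul_assoc, ← Matrix.mul_assoc, hk, Matrix.mul_assoc (om yk), ← Matrix.mul_assoc g.1,
      hgX, ← om_mul, ← om_mul, Matrix.mul_assoc]
  rw [e1, e2, e3, om_add, om_add, om_add, om_smul, om_smul, om_smul, om_smul]
  push_cast
  rw [neg_one_smul]
  abel

/-- Step 4. -/
theorem exists_trace (g : SL(2, ℝ)) : ∃ u : Q4 ℤ, (g⁻¹.1 * om u).trace ≠ 0 := by
  by_contra hcon
  push Not at hcon
  have h1 := hcon 1
  have h2 := hcon qi
  have h3 := hcon qj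
  have h4 := hcon qk
  rw [om_one, Matrix.mul_one] at h1
  rw [om_qi] at h2
  rw [om_qj] at h3
  rw [om_qk] at h4
  rw [Matrix.eta_fin_two (g⁻¹.1)] at h1 h2 h3 h4
  simp only [Matrix.mul_fin_two, Matrix.trace_fin_two_of] at h1 h2 h3 h4
  have hs : (0 : ℝ) < √5 := by positivity
  set G := g⁻¹.1 with hG
  have a1 : G 0 0 - G 1 1 = 0 := by
    have : √5 * (G 0 0 - G 1 1) = 0 := by linarith
    rcases mul_eq_zero.mp this with h | h
    · exact absurd h hs.ne'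
    · exact h
  have a2 : G 1 0 - 13 * G 0 1 = 0 := by
    have : √5 * (G 1 0 - 13 * G 0 1) = 0 := by linarith
    rcases mul_eq_zero.mp this with h | h
    · exact absurd h hs.ne'
    · exact h
  have hdet := (g⁻¹).2
  rw [Matrix.det_fin_two] at hdet
  have b1 : G 0 0 = 0 := by linarith
  have b2 : G 0 1 = 0 := by linarith
  rw [← hG, b1, b2] at hdet
  simp at hdet

/-- Bezout form of primitivity. -/
def Prim (x : Q4 ℤ) : Prop := ∃ r s t u : ℤ, r * x.a + s * x.b + t * x.c + u * x.d = 1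

theorem exists_prim (w : Q4 ℤ) (hw : w ≠ ⟨0, 0, 0, 0⟩) :
    ∃ (m : ℤ) (x : Q4 ℤ), m ≠ 0 ∧ Prim x ∧ w = Q4.smul m x := by
  set d1 : ℤ := (Int.gcd w.a w.b : ℤ) with hd1
  set d2 : ℤ := (Int.gcd w.c w.d : ℤ) with hd2
  set m : ℤ := (Int.gcd d1 d2 : ℤ) with hm
  have e1 : d1 = w.a * Int.gcdA w.a w.b + w.b * Int.gcdB w.a w.b := Int.gcd_eq_gcd_ab _ _
  have e2 : d2 = w.c * Int.gcdA w.c w.d + w.d * Int.gcdB w.c w.d := Int.gcd_eq_gcd_ab _ _
  have e3 : m = d1 * Int.gcdA d1 d2 + d2 * Int.gcdB d1 d2 := Int.gcd_eq_gcd_ab _ _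
  have f1 : m ∣ d1 := Int.gcd_dvd_left _ _
  have f2 : m ∣ d2 := Int.gcd_dvd_right _ _
  obtain ⟨a, ha⟩ : m ∣ w.a := f1.trans (Int.gcd_dvd_left _ _)
  obtain ⟨b, hb⟩ : m ∣ w.b := f1.trans (Int.gcd_dvd_right _ _)
  obtain ⟨c, hc⟩ : m ∣ w.c := f2.trans (Int.gcd_dvd_left _ _)
  obtain ⟨d, hd⟩ : m ∣ w.d := f2.trans (Int.gcd_dvd_right _ _)
  have hm0 : m ≠ 0 := by
    intro h0
    apply hw
    rw [h0, zero_mul] at ha hb hc hd
    ext <;> assumption
  refine ⟨m, ⟨a, b, c, d⟩, hm0, ?_, by unfold Q4.smul; ext <;> assumption⟩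
  refine ⟨Int.gcdA w.a w.b * Int.gcdA d1 d2, Int.gcdB w.a w.b * Int.gcdA d1 d2,
    Int.gcdA w.c w.d * Int.gcdB d1 d2, Int.gcdB w.c w.d * Int.gcdB d1 d2, ?_⟩
  have h1 : m * (Int.gcdA w.a w.b * Int.gcdA d1 d2 * a + Int.gcdB w.a w.b * Int.gcdA d1 d2 * b +
    Int.gcdA w.c w.d * Int.gcdB d1 d2 * c + Int.gcdB w.c w.d * Int.gcdB d1 d2 * d) = m * 1 := by
    rw [mul_one]
    conv_rhs => rw [e3]
    have e1' : d1 = m * a * Int.gcdA w.a w.b + m * b * Int.gcdB w.a w.b := by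
      conv_lhs => rw [e1]
      rw [← ha, ← hb]
    have e2' : d2 = m * c * Int.gcdA w.c w.d + m * d * Int.gcdB w.c w.d := by
      conv_lhs => rw [e2]
      rw [← hc, ← hd]
    have e1'' : d1 * Int.gcdA d1 d2 =
        (m * a * Int.gcdA w.a w.b + m * b * Int.gcdB w.a w.b) * Int.gcdA d1 d2 :=
      congrArg (· * Int.gcdA d1 d2) e1'
    have e2'' : d2 * Int.gcdB d1 d2 =
        (m * c * Int.gcdA w.c w.d + m * d * Int.gcdB w.c w.d) * Int.gcdB d1 d2 :=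
      congrArg (· * Int.gcdB d1 d2) e2'
    rw [e1'', e2'']
    ring
  exact mul_left_cancel₀ hm0 h1

end Pool.Agent.E8helper58.HM
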