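import Pool.Agent.E8helper58.HM.Norm

/-! The normaliser, second part. -/

set_option autoImplicit false

open scoped MatrixGroups UpperHalfPlane
open UpperHalfPlane Pool.Agent.H85R3.HS

namespace Pool.Agent.E8helper58.HM

open Q4

theorem qmul_smul (t : ℤ) (x y : Q4 ℤ) : x * Q4.smul t y = Q4.smul t (x * y) := mul_smul' t x y

/-- The averaging identity for quaternions, multiplied by `x*`. -/
theorem identity_q (u x : Q4 ℤ) :
    Q4.smul 65 (u * (x * conj x)) + (Q4.smul 13 (qi * u * (x * qi * conj x)) +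
      (Q4.smul 5 (qj * u * (x * qj * conj x)) + Q4.smul (-1) (qk * u * (x * qk * conj x)))) =
    Q4.smul (130 * (2 * (u * x).a + (u * x).b)) (conj x) := by
  simp only [add_def, Q4.smul, mul_def, qi, qj, qk, conj]
  ext <;> ring

theorem dvd_comb {n : ℤ} {x : Q4 ℤ} (hx : Prim x) {t : ℤ} (h : ∃ w, Q4.smul t (conj x) = Q4.smul n w) :
    n ∣ t := by
  obtain ⟨r, s, t', u, hb⟩ := hx
  obtain ⟨w, hw⟩ := h
  simp only [Q4.smul, conj, Q4.mk.injEq] at hw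
  obtain ⟨h1, h2, h3, h4⟩ := hw
  refine ⟨r * w.a + (r - s) * w.b - t' * w.c - u * w.d, ?_⟩
  linear_combination (-t) * hb + r * h1 + (r - s) * h2 - t' * h3 - u * h4

/-- Step 8: the norm divides `8450`. -/
theorem dvd_8450 {n : ℤ} {x : Q4 ℤ} (hx : Prim x) (hn : Q4.nf x = n)
    (h : ∀ e : Q4 ℤ, ∃ y, x * e * conj x = Q4.smul n y) : n ∣ 8450 := by
  obtain ⟨yi, hi⟩ := h qi
  obtain ⟨yj, hj⟩ := h qj
  obtain ⟨yk, hk⟩ := h qk
  have key : ∀ u : Q4 ℤ, n ∣ 130 * (2 * (u * x).a + (u * x).b) := by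
    intro u
    apply dvd_comb hx
    refine ⟨Q4.smul 65 u + (Q4.smul 13 (qi * u * yi) + (Q4.smul 5 (qj * u * yj) +
      Q4.smul (-1) (qk * u * yk))), ?_⟩
    rw [← identity_q, hi, hj, hk, mul_conj, hn]
    simp only [add_def, Q4.smul, mul_def, one_def]
    ext <;> ring
  have k1 := key 1
  have k2 := key qf
  have k3 := key qj
  have k4 := key qfj
  simp only [mul_def, one_def, qf, qj, qfj] at k1 k2 k3 k4
  obtain ⟨r, s, t, u, hb⟩ := hx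
  obtain ⟨l1, k1⟩ := k1
  obtain ⟨l2, k2⟩ := k2
  obtain ⟨l3, k3⟩ := k3
  obtain ⟨l4, k4⟩ := k4
  -- 5 a = 3 (2a+b) - (a+3b), 5 b = 2 (a+3b) - (2a+b)
  have m1 : (8450 : ℤ) * x.a = n * (13 * (3 * l1 - l2)) := by linear_combination 13 * (3 * k1 - k2)
  have m2 : (8450 : ℤ) * x.b = n * (13 * (2 * l2 - l1)) := by linear_combination 13 * (2 * k2 - k1)
  have m3 : (8450 : ℤ) * x.c = n * (2 * l3 + l4) := by linear_combination 2 * k3 + k4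
  have m4 : (8450 : ℤ) * x.d = n * (l3 - 2 * l4) := by linear_combination k3 - 2 * k4
  refine ⟨r * (13 * (3 * l1 - l2)) + s * (13 * (2 * l2 - l1)) + t * (2 * l3 + l4) +
    u * (l3 - 2 * l4), ?_⟩
  linear_combination (-8450) * hb + r * m1 + s * m2 + t * m3 + u * m4

/-- Reduction modulo `2`. -/
theorem mod2 : ∀ a b c d : ZMod 2,
    (∀ e ∈ ([⟨1, 0, 0, 0⟩, ⟨0, 1, 0, 0⟩, ⟨0, 0, 1, 0⟩, ⟨0, 0, 0, 1⟩] : List (Q4 (ZMod 2))),
      (⟨a, b, c, d⟩ : Q4 (ZMod 2)) * e * conj ⟨a, b, c, d⟩ = ⟨0, 0, 0, 0⟩) →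
    a = 0 ∧ b = 0 ∧ c = 0 ∧ d = 0 := by decide +kernel

/-- Cast of a quaternion. -/
def cst (R : Type) [CommRing R] (x : Q4 ℤ) : Q4 R := ⟨x.a, x.b, x.c, x.d⟩

theorem cst_mul (R : Type) [CommRing R] (x y : Q4 ℤ) : cst R (x * y) = cst R x * cst R y := by
  simp only [cst, mul_def]
  push_cast
  rfl

theorem cst_conj (R : Type) [CommRing R] (x : Q4 ℤ) : cst R (conj x) = conj (cst R x) := by
  simp only [cst, conj]
  push_cast
  rfl

theorem cst_smul (R : Type) [CommRing R] (t : ℤ) (x : Q4 ℤ) :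
    cst R (Q4.smul t x) = Q4.smul (t : R) (cst R x) := by
  simp only [cst, Q4.smul]
  push_cast
  rfl

theorem Prim.not_dvd {x : Q4 ℤ} (hx : Prim x) {p : ℤ} (hp : ¬ p ∣ 1) :
    ¬ (p ∣ x.a ∧ p ∣ x.b ∧ p ∣ x.c ∧ p ∣ x.d) := by
  rintro ⟨h1, h2, h3, h4⟩
  obtain ⟨r, s, t, u, hb⟩ := hx
  apply hp
  rw [← hb]
  exact dvd_add (dvd_add (dvd_add (dvd_mul_of_dvd_right h1 _) (dvd_mul_of_dvd_right h2 _))
    (dvd_mul_of_dvd_right h3 _)) (dvd_mul_of_dvd_right h4 _)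

theorem not_two {n : ℤ} {x : Q4 ℤ} (hx : Prim x)
    (h : ∀ e : Q4 ℤ, ∃ y, x * e * conj x = Q4.smul n y) : ¬ (2 : ℤ) ∣ n := by
  intro h2
  have hn : (n : ZMod 2) = 0 := (ZMod.intCast_zmod_eq_zero_iff_dvd _ 2).mpr h2
  have key : ∀ e : Q4 ℤ, cst (ZMod 2) x * cst (ZMod 2) e * conj (cst (ZMod 2) x) = ⟨0, 0, 0, 0⟩ := by
    intro e
    obtain ⟨y, hy⟩ := h e
    rw [← cst_mul, ← cst_conj, ← cst_mul, hy, cst_smul, hn]
    simp [Q4.smul]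
  obtain ⟨h1, h2, h3, h4⟩ := mod2 x.a x.b x.c x.d (by
    intro e he
    simp only [List.mem_cons, List.not_mem_nil, or_false] at he
    rcases he with rfl | rfl | rfl | rfl
    · simpa [cst, one_def] using key 1
    · simpa [cst, qf] using key qf
    · simpa [cst, qj] using key qj
    · simpa [cst, qfj] using key qfj)
  exact hx.not_dvd (p := 2) (by norm_num)
    ⟨(ZMod.intCast_zmod_eq_zero_iff_dvd _ 2).mp h1, (ZMod.intCast_zmod_eq_zero_iff_dvd _ 2).mp h2,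
      (ZMod.intCast_zmod_eq_zero_iff_dvd _ 2).mp h3, (ZMod.intCast_zmod_eq_zero_iff_dvd _ 2).mp h4⟩

theorem mod5a : ∀ u v : ZMod 5, u ^ 2 = 3 * v ^ 2 → u = 0 ∧ v = 0 := by decide

theorem not_25 {x : Q4 ℤ} (hx : Prim x) : ¬ (25 : ℤ) ∣ Q4.nf x := by
  rintro ⟨k, hk⟩
  unfold Q4.nf at hk
  have h1 : ((x.a + 3 * x.b : ℤ) : ZMod 5) ^ 2 = 3 * ((x.c + 3 * x.d : ℤ) : ZMod 5) ^ 2 := by
    have h2 := congrArg (Int.cast : ℤ → ZMod 5) hk
    push_cast at h2 ⊢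
    have h3 : (25 : ZMod 5) = 0 := by decide
    have h4 : (5 : ZMod 5) = 0 := by decide
    rw [h3, zero_mul] at h2
    linear_combination h2 + ((x.a : ZMod 5) * x.b + 2 * x.b ^ 2 + 2 * x.c ^ 2 -
      (x.c : ZMod 5) * x.d - 8 * x.d ^ 2) * h4
  obtain ⟨h2, h3⟩ := mod5a _ _ h1
  obtain ⟨a', ha⟩ := (ZMod.intCast_zmod_eq_zero_iff_dvd _ 5).mp h2
  obtain ⟨c', hc⟩ := (ZMod.intCast_zmod_eq_zero_iff_dvd _ 5).mp h3
  push_cast at ha hc
  have ha' : x.a = 5 * a' - 3 * x.b := by linarith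
  have hc' : x.c = 5 * c' - 3 * x.d := by linarith
  rw [ha', hc'] at hk
  have h5 : x.b ^ 2 - 13 * x.d ^ 2 = 5 * (k - a' ^ 2 + a' * x.b + 13 * (c' ^ 2 - c' * x.d)) := by
    nlinarith
  have h6 : ((x.b : ℤ) : ZMod 5) ^ 2 = 3 * ((x.d : ℤ) : ZMod 5) ^ 2 := by
    have h7 := congrArg (Int.cast : ℤ → ZMod 5) h5
    push_cast at h7
    have h4 : (5 : ZMod 5) = 0 := by decide
    rw [h4, zero_mul] at h7
    linear_combination h7 + (2 * (x.d : ZMod 5) ^ 2) * h4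
  obtain ⟨h8, h9⟩ := mod5a _ _ h6
  obtain ⟨b', hb⟩ := (ZMod.intCast_zmod_eq_zero_iff_dvd _ 5).mp h8
  obtain ⟨d', hd⟩ := (ZMod.intCast_zmod_eq_zero_iff_dvd _ 5).mp h9
  exact hx.not_dvd (p := 5) (by norm_num) ⟨⟨a' - 3 * b', by rw [ha', hb]; push_cast; ring⟩, ⟨b', hb⟩,
    ⟨c' - 3 * d', by rw [hc', hd]; push_cast; ring⟩, ⟨d', hd⟩⟩

theorem divs : ∀ n ∈ Nat.divisors 8450, n % 2 ≠ 0 → n % 25 ≠ 0 → n % 169 ≠ 0 →
    n = 1 ∨ n = 5 ∨ n = 13 ∨ n = 65 := by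
  have h : Nat.divisors 8450 =
      {1, 2, 5, 10, 13, 25, 26, 50, 65, 130, 169, 325, 338, 650, 845, 1690, 4225, 8450} := by
    decide +kernel
  rw [h]
  decide

theorem norm_cases {n : ℤ} {x : Q4 ℤ} (hx : Prim x) (hn : Q4.nf x = n) (h0 : 0 < n)
    (h : ∀ e : Q4 ℤ, ∃ y, x * e * conj x = Q4.smul n y) :
    n = 1 ∨ n = 5 ∨ n = 13 ∨ n = 65 := by
  have h1 := dvd_8450 hx hn h
  have h2 := not_two hx h
  have h3 := not_25 hx
  have h4 : ¬ (169 : ℤ) ∣ Q4.nf x := fun hd => hx.not_dvd (p := 13) (by norm_num) (nf_dvd hd)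
  rw [hn] at h3 h4
  obtain ⟨m, rfl⟩ := Int.eq_ofNat_of_zero_le h0.le
  have h5 : m ∣ 8450 := by exact_mod_cast h1
  have := divs m (Nat.mem_divisors.mpr ⟨h5, by norm_num⟩) (by omega) (by omega) (by omega)
  omega

end Pool.Agent.E8helper58.HM
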