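import Pool.Agent.E8helper58.HM.Level

/-! The finite groups of the level structures are determined by their conjugates. -/

set_option autoImplicit false

namespace Pool.Agent.E8helper58.HM

open Q4

/-- Loop over the reduced quadruples. -/
def loop4 (r : List ℕ) (f : Q4 ℕ → Bool) : Bool :=
  r.all fun a => r.all fun b => r.all fun c => r.all fun d => f ⟨a, b, c, d⟩

theorem loop4_spec {p : ℕ} {f : Q4 ℕ → Bool} (h : loop4 (List.range p) f = true) (x : Q4 ℕ)
    (hx : Red p x) : f x = true := by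
  unfold loop4 at h
  simp only [List.all_eq_true, List.mem_range] at h
  exact h x.a hx.1 x.b hx.2.1 x.c hx.2.2.1 x.d hx.2.2.2

/-- The check: if `q s₁ q*` and `q s₂ q*` lie in the set with mask `m` and `q` has norm `n`, then
`q` lies in the set with mask `mq`. -/
def rigChk (p n m mq : ℕ) (s1 s2 : Q4 ℕ) (r : List ℕ) : Bool :=
  loop4 r fun q => !(Nat.beq (nnf p q) n) ||
    !(m.testBit (code p (nmul p (nmul p q s1) (nconj p q)))) ||
    !(m.testBit (code p (nmul p (nmul p q s2) (nconj p q)))) || mq.testBit (code p q)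

theorem rig_spec {p n : ℕ} {l lq : List (Q4 ℕ)} {s1 s2 : Q4 ℕ} (hlq : ∀ x ∈ lq, Red p x)
    (h : rigChk p n (mask p l) (mask p lq) s1 s2 (List.range p) = true) (q : Q4 ℕ) (hq : Red p q)
    (hn : nnf p q = n) (h1 : nmul p (nmul p q s1) (nconj p q) ∈ l)
    (h2 : nmul p (nmul p q s2) (nconj p q) ∈ l) : q ∈ lq := by
  have h3 := loop4_spec h q hq
  have e1 : Nat.beq (nnf p q) n = true := by simpa using hn
  rw [e1, mask_of_mem h1, mask_of_mem h2] at h3
  simp at h3
  exact mem_of_mask hlq hq h3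

/-- Explicit elements. -/
def g1 : Q4 ℤ := ⟨-34, -68, -1, 9⟩
/-- Explicit elements. -/
def g2 : Q4 ℤ := ⟨154, 14, -55, -70⟩
/-- Explicit elements. -/
def g3 : Q4 ℤ := ⟨-90, 247, 34, -68⟩
/-- Explicit elements. -/
def g4 : Q4 ℤ := ⟨-66, 286, -151, -265⟩
/-- Explicit elements. -/
def ea : Q4 ℤ := ⟨13, 281, 136, 238⟩
/-- Explicit elements. -/
def eb : Q4 ℤ := ⟨0, 34, -85, -138⟩

/-- Scaled list. -/
def sml (p n : ℕ) (l : List (Q4 ℕ)) : List (Q4 ℕ) := l.map (nsm p n)

theorem rig11_1 : rigChk 11 1 (mask 11 (sml 11 1 lA)) (mask 11 lA) (rd 11 g1) (rd 11 g2)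
    (List.range 11) = true := by decide +kernel

theorem rig11_2 : rigChk 11 2 (mask 11 (sml 11 13 lA)) (mask 11 []) (rd 11 g1) (rd 11 g2)
    (List.range 11) = true := by decide +kernel

theorem rig11_10 : rigChk 11 10 (mask 11 (sml 11 65 lA)) (mask 11 []) (rd 11 g1) (rd 11 g2)
    (List.range 11) = true := by decide +kernel

theorem rig7_1 : rigChk 7 1 (mask 7 (sml 7 1 lH)) (mask 7 lH) (rd 7 g1) (rd 7 g2)
    (List.range 7) = true := by decide +kernel

end Pool.Agent.E8helper58.HM
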