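import Pool.Agent.E8helper58.HM.Cosets
import Pool.Agent.E8helper58.HM.Defs

/-! Statement of the arithmeticity part. -/

set_option autoImplicit false

namespace Pool.Agent.E8helper58.HM

/-- Part ARITH: the group `GamH` is arithmetic. -/
def S_ARITH : Prop := Main.IsArithmetic GamH

end Pool.Agent.E8helper58.HM
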