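import Pool.Agent.E8helper58.HM.Norm3

/-! Torsion-freeness of the image in `PSL(2, ℝ)`. -/

set_option autoImplicit false

open scoped MatrixGroups UpperHalfPlane
open UpperHalfPlane Pool.Agent.H85R3.HS

namespace Pool.Agent.E8helper58.HM

theorem sq_eq (g : SL(2, ℝ)) : g.1 * g.1 = g.1.trace • g.1 - 1 := by
  have hdet := g.2
  rw [Matrix.det_fin_two] at hdet
  rw [Matrix.eta_fin_two g.1, Matrix.mul_fin_two, Matrix.trace_fin_two_of, Matrix.one_fin_two]
  ext i j
  fin_cases i <;> fin_cases j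
  · simp
    linear_combination (-1) * hdet
  · simp
    ring
  · simp
    ring
  · simp
    linear_combination (-1) * hdet

theorem trace_succ (g : SL(2, ℝ)) (n : ℕ) :
    (g.1 ^ (n + 2)).trace = g.1.trace * (g.1 ^ (n + 1)).trace - (g.1 ^ n).trace := by
  have h1 : g.1 ^ (n + 2) = g.1.trace • g.1 ^ (n + 1) - g.1 ^ n := by
    rw [pow_add, pow_two, sq_eq, Matrix.mul_sub, Matrix.mul_smul, Matrix.mul_one, pow_succ]
  rw [h1, Matrix.trace_sub, Matrix.trace_smul, smul_eq_mul]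

theorem trace_grow (g : SL(2, ℝ)) (h : 3 ≤ |g.1.trace|) (n : ℕ) :
    2 ≤ |(g.1 ^ n).trace| ∧ |(g.1 ^ n).trace| < |(g.1 ^ (n + 1)).trace| := by
  induction n with
  | zero =>
    rw [pow_zero, zero_add, pow_one, Matrix.trace_one, Fintype.card_fin]
    norm_num
    linarith
  | succ n ih =>
    obtain ⟨h1, h2⟩ := ih
    refine ⟨by linarith, ?_⟩
    rw [trace_succ]
    have h3 : |g.1.trace| * |(g.1 ^ (n + 1)).trace| ≤
        |g.1.trace * (g.1 ^ (n + 1)).trace - (g.1 ^ n).trace| + |(g.1 ^ n).trace| := by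
      rw [← abs_mul]
      have := abs_sub_abs_le_abs_sub (g.1.trace * (g.1 ^ (n + 1)).trace) ((g.1 ^ n).trace)
      linarith
    nlinarith

theorem trace_mem {g : SL(2, ℝ)} (hg : g ∈ GamH) (hg1 : g ≠ 1) : 3 ≤ |g.1.trace| := by
  obtain ⟨x, hx, hb, -⟩ := hg
  have hx1 : x ≠ 1 := by
    rintro rfl
    apply hg1
    apply Subtype.ext
    rw [hx, om_one]
    rfl
  have h1 := trace_ge hb.1 hx1 hb.2.1
  rw [hx, trace_om]
  exact_mod_cast h1

/-- The image of the group in `PSL(2, ℝ)` is torsion-free. -/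
theorem torsion_free : ∀ q ∈ Main.imagePSL GamH, IsOfFinOrder q → q = 1 := by
  rintro _ ⟨g, hg, rfl⟩ hq
  by_cases hg1 : g = 1
  · rw [hg1, map_one]
  exfalso
  obtain ⟨n, hn, hn1⟩ := isOfFinOrder_iff_pow_eq_one.mp hq
  rw [← map_pow, QuotientGroup.mk'_apply, QuotientGroup.eq_one_iff] at hn1
  have h1 : |(g.1 ^ n).trace| = 2 := by
    have h2 : (g ^ n).1 = g.1 ^ n := by simp
    rw [← h2]
    rcases center_cases hn1 with h | h
    · rw [h]
      simp [Matrix.trace_one]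
    · rw [h]
      simp [Matrix.trace_neg, Matrix.trace_one]
  obtain ⟨m, rfl⟩ : ∃ m, n = m + 1 := ⟨n - 1, by omega⟩
  obtain ⟨h2, h3⟩ := trace_grow g (trace_mem hg hg1) m
  linarith

end Pool.Agent.E8helper58.HM
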